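import Pool.Agent.Helper9.GR.Min

/-!
Project GR (helper9), package A1 (helper42): products of maximal minors.
-/

set_option autoImplicit false
set_option linter.unusedSectionVars false

namespace Pool.Agent.Helper42.GR

open MvPolynomial Matrix Pool.Agent.Helper9.GR

section basic

variable {R : Type} [CommRing R] {s q : ℕ}

theorem hom_mn {S : Type} [CommRing S] (φ : MvPolynomial (Fin s × Fin q) R →+* S)
    (σ : Fin q → Fin s) :
    φ (mn R σ) = (Matrix.of fun a b => φ (X (σ a, b))).det := by
  rw [mn, RingHom.map_det]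
  rfl

theorem eval_mn (x : Fin s × Fin q → R) (σ : Fin q → Fin s) :
    eval x (mn R σ) = (Matrix.of fun a b => x (σ a, b)).det := by
  rw [hom_mn]
  simp

theorem map_mn {S : Type} [CommRing S] (φ : R →+* S) (σ : Fin q → Fin s) :
    MvPolynomial.map φ (mn R σ) = mn S σ := by
  rw [hom_mn, mn]
  simp

theorem prod_mem_W {ι : Type} (T : Finset ι) (σ : ι → Fin q → Fin s) :
    ∏ i ∈ T, mn R (σ i) ∈ W R s q T.card := by
  classical
  apply Submodule.subset_span
  refine ⟨fun i => σ (T.equivFin.symm i), ?_⟩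
  show ∏ i : Fin T.card, mn R (σ (T.equivFin.symm i)) = _
  rw [Equiv.prod_comp T.equivFin.symm (fun i : T => mn R (σ i)), Finset.prod_coe_sort T
    (fun i => mn R (σ i))]

theorem one_mem_W : (1 : MvPolynomial (Fin s × Fin q) R) ∈ W R s q 0 :=
  Submodule.subset_span ⟨fun i => i.elim0, by simp⟩

theorem mn_mem (σ : Fin q → Fin s) : mn R σ ∈ W R s q 1 :=
  Submodule.subset_span ⟨fun _ => σ, by simp⟩

theorem W_mul {a b : ℕ} {f g : MvPolynomial (Fin s × Fin q) R} (hf : f ∈ W R s q a)
    (hg : g ∈ W R s q b) : f * g ∈ W R s q (a + b) := by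
  have h1 : f * g ∈ W R s q a * W R s q b := Submodule.mul_mem_mul hf hg
  rw [W, W, Submodule.span_mul_span] at h1
  refine Submodule.span_mono ?_ h1
  rintro _ ⟨_, ⟨σ, rfl⟩, _, ⟨τ, rfl⟩, rfl⟩
  refine ⟨Fin.append σ τ, ?_⟩
  simp only [Fin.prod_univ_add, Fin.append_left, Fin.append_right]

theorem W_pow {a : ℕ} {f : MvPolynomial (Fin s × Fin q) R} (hf : f ∈ W R s q a) (n : ℕ) :
    f ^ n ∈ W R s q (n * a) := by
  induction n with
  | zero => rw [pow_zero, zero_mul]; exact one_mem_W
  | succ n ih =>
    rw [pow_succ, Nat.succ_mul]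
    exact W_mul ih hf

theorem W_prod {ι : Type} (T : Finset ι) (n : ι → ℕ) (f : ι → MvPolynomial (Fin s × Fin q) R)
    (hf : ∀ i ∈ T, f i ∈ W R s q (n i)) : ∏ i ∈ T, f i ∈ W R s q (∑ i ∈ T, n i) := by
  classical
  induction T using Finset.induction_on with
  | empty => rw [Finset.prod_empty, Finset.sum_empty]; exact one_mem_W
  | insert a T ha ih =>
    rw [Finset.prod_insert ha, Finset.sum_insert ha]
    exact W_mul (hf a (Finset.mem_insert_self _ _))
      (ih fun i hi => hf i (Finset.mem_insert_of_mem hi))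

theorem W_map {S : Type} [CommRing S] (φ : R →+* S) {m : ℕ}
    {f : MvPolynomial (Fin s × Fin q) R} (hf : f ∈ W R s q m) :
    MvPolynomial.map φ f ∈ W S s q m := by
  refine Submodule.span_induction (p := fun f _ => MvPolynomial.map φ f ∈ W S s q m)
    ?_ ?_ ?_ ?_ hf
  · rintro _ ⟨σ, rfl⟩
    apply Submodule.subset_span
    refine ⟨σ, ?_⟩
    simp only [_root_.map_prod, map_mn]
  · rw [_root_.map_zero]; exact Submodule.zero_mem _
  · intro x y _ _ hx hy
    rw [_root_.map_add]; exact Submodule.add_mem _ hx hy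
  · intro a x _ hx
    rw [MvPolynomial.smul_eq_C_mul, _root_.map_mul, MvPolynomial.map_C,
      ← MvPolynomial.smul_eq_C_mul]
    exact Submodule.smul_mem _ _ hx

theorem mn_hom (σ : Fin q → Fin s) : (mn R σ).IsHomogeneous q := by
  rw [mn, Matrix.det_apply]
  apply IsHomogeneous.sum
  intro τ _
  have h1 : (∏ i : Fin q, (Matrix.of fun a b => (X (σ a, b) :
      MvPolynomial (Fin s × Fin q) R)) (τ i) i).IsHomogeneous (∑ _i : Fin q, 1) := by
    apply IsHomogeneous.prod
    intro i _
    exact isHomogeneous_X _ _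
  rw [Finset.sum_const, Finset.card_univ, Fintype.card_fin, smul_eq_mul, mul_one] at h1
  rcases Int.units_eq_one_or (Equiv.Perm.sign τ) with h2 | h2
  · rw [h2, one_smul]; exact h1
  · rw [h2, Units.neg_smul, one_smul]
    exact h1.neg

theorem W_hom {m : ℕ} {f : MvPolynomial (Fin s × Fin q) R} (hf : f ∈ W R s q m) :
    f.IsHomogeneous (m * q) := by
  refine Submodule.span_induction (p := fun f _ => f.IsHomogeneous (m * q)) ?_ ?_ ?_ ?_ hf
  · rintro _ ⟨σ, rfl⟩
    have h1 : (∏ i : Fin m, mn R (σ i)).IsHomogeneous (∑ _i : Fin m, q) :=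
      IsHomogeneous.prod _ _ _ fun i _ => mn_hom _
    rwa [Finset.sum_const, Finset.card_univ, Fintype.card_fin, smul_eq_mul] at h1
  · exact isHomogeneous_zero _ _ _
  · intro x y _ _ hx hy
    exact hx.add hy
  · intro a x _ hx
    rw [MvPolynomial.smul_eq_C_mul]
    have := (isHomogeneous_C (Fin s × Fin q) a).mul hx
    rwa [zero_add] at this

/-- `f(x h) = det(h)^m f(x)` -/
theorem eval_mul_right {m : ℕ} {f : MvPolynomial (Fin s × Fin q) R} (hf : f ∈ W R s q m)
    (x : Fin s × Fin q → R) (h : Matrix (Fin q) (Fin q) R) :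
    eval (fun z => ∑ b, x (z.1, b) * h b z.2) f = h.det ^ m * eval x f := by
  refine Submodule.span_induction (p := fun f _ =>
    eval (fun z => ∑ b, x (z.1, b) * h b z.2) f = h.det ^ m * eval x f) ?_ ?_ ?_ ?_ hf
  · rintro _ ⟨σ, rfl⟩
    simp only [_root_.map_prod, eval_mn]
    have h1 : ∀ i, (Matrix.of fun a b => ∑ c, x (σ i a, c) * h c b).det =
        h.det * (Matrix.of fun a b => x (σ i a, b)).det := by
      intro i
      rw [mul_comm, ← Matrix.det_mul]
      rfl
    rw [Finset.prod_congr rfl fun i _ => h1 i, Finset.prod_mul_distrib, Finset.prod_const,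
      Finset.card_univ, Fintype.card_fin]
  · simp
  · intro x y _ _ hx hy
    rw [_root_.map_add, _root_.map_add, hx, hy]; ring
  · intro a x _ hx
    rw [MvPolynomial.smul_eq_C_mul, _root_.map_mul, _root_.map_mul, hx, eval_C, eval_C]; ring

end basic

section rho

/-- the restriction to the matrices `(1 | Z)` -/
noncomputable def rho (R : Type) [CommRing R] (s q : ℕ) :
    MvPolynomial (Fin s × Fin q) R →ₐ[R] MvPolynomial (Fin s × Fin q) R :=
  aeval fun z => if (z.1 : ℕ) < q then (if (z.1 : ℕ) = z.2 then 1 else 0) else X z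

variable {R : Type} [CommRing R] {s q : ℕ}

theorem rho_X (z : Fin s × Fin q) : rho R s q (X z) =
    if (z.1 : ℕ) < q then (if (z.1 : ℕ) = z.2 then 1 else 0) else X z := aeval_X _ _

theorem rho_C (c : R) : rho R s q (C c) = C c := by
  unfold rho
  rw [aeval_C]
  rfl

theorem eval_rho (x : Fin s × Fin q → R) (f : MvPolynomial (Fin s × Fin q) R) :
    eval x (rho R s q f) = eval (fun z => if (z.1 : ℕ) < q then
      (if (z.1 : ℕ) = z.2 then 1 else 0) else x z) f := by
  have : (eval x).comp (rho R s q).toRingHom = eval (fun z => if (z.1 : ℕ) < q then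
      (if (z.1 : ℕ) = z.2 then 1 else 0) else x z) := by
    apply MvPolynomial.ringHom_ext
    · intro r
      change eval x (rho R s q (C r)) = _
      rw [rho_C, eval_C, eval_C]
    · intro z
      change eval x (rho R s q (X z)) = _
      rw [rho_X, eval_X]
      split_ifs <;> simp
  exact RingHom.congr_fun this f

theorem map_rho {S : Type} [CommRing S] (φ : R →+* S) (f : MvPolynomial (Fin s × Fin q) R) :
    MvPolynomial.map φ (rho R s q f) = rho S s q (MvPolynomial.map φ f) := by
  have : (MvPolynomial.map φ).comp (rho R s q).toRingHom =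
      (rho S s q).toRingHom.comp (MvPolynomial.map φ) := by
    apply MvPolynomial.ringHom_ext
    · intro r
      change MvPolynomial.map φ (rho R s q (C r)) = rho S s q (MvPolynomial.map φ (C r))
      rw [rho_C, map_C, rho_C]
    · intro z
      change MvPolynomial.map φ (rho R s q (X z)) = rho S s q (MvPolynomial.map φ (X z))
      rw [rho_X, map_X, rho_X]
      split_ifs <;> simp
  exact RingHom.congr_fun this f

/-- the first rows -/
def io0 (h : q ≤ s) : Fin q → Fin s := Fin.castLE h

theorem rho_mn0 (h : q ≤ s) : rho R s q (mn R (io0 h)) = 1 := by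
  have h1 := hom_mn (rho R s q).toRingHom (io0 h)
  change rho R s q (mn R (io0 h)) = _ at h1
  rw [h1, ← Matrix.det_one (n := Fin q) (R := MvPolynomial (Fin s × Fin q) R)]
  congr 1
  ext1 a b
  change rho R s q (X (io0 h a, b)) = _
  rw [rho_X, if_pos (by simp [io0]), Matrix.one_apply]
  congr 1
  simp [io0, Fin.ext_iff]

theorem rho_mn1 (h : q ≤ s) (z : Fin s × Fin q) (hz : q ≤ (z.1 : ℕ)) :
    rho R s q (mn R (Function.update (io0 h) z.2 z.1)) = X z := by
  have h1 := hom_mn (rho R s q).toRingHom (Function.update (io0 h) z.2 z.1)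
  change rho R s q (mn R (Function.update (io0 h) z.2 z.1)) = _ at h1
  rw [h1]
  have h2 : (Matrix.of fun a b => (rho R s q).toRingHom
      (X (Function.update (io0 h) z.2 z.1 a, b))) =
      (1 : Matrix (Fin q) (Fin q) (MvPolynomial (Fin s × Fin q) R)).updateRow z.2
        (fun b => X (z.1, b)) := by
    ext1 a b
    change rho R s q (X (Function.update (io0 h) z.2 z.1 a, b)) = _
    rw [rho_X, Matrix.updateRow_apply]
    by_cases ha : a = z.2
    · rw [if_pos ha, ha, Function.update_self, if_neg (by simpa using hz)]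
    · rw [if_neg ha, Function.update_of_ne ha, if_pos (by simp [io0]), Matrix.one_apply]
      congr 1
      simp [io0, Fin.ext_iff]
  rw [h2]
  have h3 := Matrix.cramer_transpose_apply
    (1 : Matrix (Fin q) (Fin q) (MvPolynomial (Fin s × Fin q) R)) (fun b => X (z.1, b)) z.2
  rw [← h3, Matrix.transpose_one, Matrix.cramer_one]
  rfl

/-- the restriction to the cell is injective -/
theorem rho_inj {F : Type} [Field F] [CharZero F] (hqs : q ≤ s) {m : ℕ}
    {f : MvPolynomial (Fin s × Fin q) F} (hf : f ∈ W F s q m) (h0 : rho F s q f = 0) : f = 0 := by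
  have : Infinite F := inferInstance
  have h1 : f * mn F (io0 hqs) = 0 := by
    apply MvPolynomial.funext
    intro x
    rw [_root_.map_mul, _root_.map_zero]
    set x1 : Matrix (Fin q) (Fin q) F := Matrix.of fun a b => x (io0 hqs a, b) with hx1
    by_cases hd : x1.det = 0
    · rw [eval_mn, ← hx1, hd, mul_zero]
    · have h2 := eval_mul_right hf x x1⁻¹
      have h3 : eval (fun z => ∑ b, x (z.1, b) * x1⁻¹ b z.2) f = 0 := by
        have h4 := eval_rho (fun z : Fin s × Fin q => ∑ b, x (z.1, b) * x1⁻¹ b z.2) f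
        rw [h0, _root_.map_zero] at h4
        rw [h4]
        congr 2
        funext z
        split_ifs with h5 h6
        · have h7 : z.1 = io0 hqs ⟨z.1, h5⟩ := by simp [io0]
          have h8 : ∑ b, x (z.1, b) * x1⁻¹ b z.2 = (x1 * x1⁻¹) ⟨z.1, h5⟩ z.2 := by
            rw [Matrix.mul_apply, hx1]
            simp only [Matrix.of_apply]
            rw [← h7]
          rw [h8, Matrix.mul_nonsing_inv _ (isUnit_iff_ne_zero.2 hd), Matrix.one_apply,
            if_pos (by exact Fin.ext h6)]
        · have h7 : z.1 = io0 hqs ⟨z.1, h5⟩ := by simp [io0]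
          have h8 : ∑ b, x (z.1, b) * x1⁻¹ b z.2 = (x1 * x1⁻¹) ⟨z.1, h5⟩ z.2 := by
            rw [Matrix.mul_apply, hx1]
            simp only [Matrix.of_apply]
            rw [← h7]
          rw [h8, Matrix.mul_nonsing_inv _ (isUnit_iff_ne_zero.2 hd), Matrix.one_apply,
            if_neg (fun h => h6 (by rw [← h]))]
        · rfl
      rw [h3] at h2
      have h9 : x1⁻¹.det ^ m ≠ 0 := by
        apply pow_ne_zero
        rw [Matrix.det_nonsing_inv, Ring.inverse_eq_inv]
        exact inv_ne_zero hd
      rw [(mul_eq_zero.1 h2.symm).resolve_left h9, zero_mul]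
  refine (mul_eq_zero.1 h1).resolve_right ?_
  intro h2
  have h3 := rho_mn0 (R := F) hqs
  rw [h2, _root_.map_zero] at h3
  exact zero_ne_one h3

end rho

end Pool.Agent.Helper42.GR
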