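import Pool.Agent.Helper42.GR.Basic

/-!
Project GR (helper9), package A1 (helper42): coordinates on the forms of weight `m`.
-/

set_option autoImplicit false
set_option linter.unusedSectionVars false

namespace Pool.Agent.Helper42.GR

open MvPolynomial Matrix Pool.Agent.Helper9.GR

/-- the exponents of degree at most `T` in the free variables -/
noncomputable def D (s q T : ℕ) : Finset ((Fin s × Fin q) →₀ ℕ) :=
  (Finsupp.finite_of_degree_le (σ := Fin s × Fin q) T).toFinset.filter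
    fun β => ∀ z : Fin s × Fin q, (z.1 : ℕ) < q → β z = 0

theorem mem_D {s q T : ℕ} {β : (Fin s × Fin q) →₀ ℕ} : β ∈ D s q T ↔
    β.degree ≤ T ∧ ∀ z : Fin s × Fin q, (z.1 : ℕ) < q → β z = 0 := by
  unfold D
  rw [Finset.mem_filter, Set.Finite.mem_toFinset]
  rfl

theorem D_add {s q a b : ℕ} {β γ : (Fin s × Fin q) →₀ ℕ} (hβ : β ∈ D s q a)
    (hγ : γ ∈ D s q b) : β + γ ∈ D s q (a + b) := by
  rw [mem_D] at *
  refine ⟨?_, fun z hz => ?_⟩
  · rw [_root_.map_add]
    exact add_le_add hβ.1 hγ.1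
  · rw [Finsupp.add_apply, hβ.2 z hz, hγ.2 z hz]

theorem D_mono {s q a b : ℕ} (h : a ≤ b) : D s q a ⊆ D s q b := by
  intro β hβ
  rw [mem_D] at *
  exact ⟨hβ.1.trans h, hβ.2⟩

/-- the polynomials with exponents in `D s q n` -/
def SM (R : Type) [CommRing R] (s q n : ℕ) : Submodule R (MvPolynomial (Fin s × Fin q) R) where
  carrier := {F | ∀ β, β ∉ D s q n → coeff β F = 0}
  add_mem' := by
    intro F G hF hG β hβ
    rw [coeff_add, hF β hβ, hG β hβ, add_zero]
  zero_mem' := by
    intro β _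
    exact coeff_zero β
  smul_mem' := by
    intro a F hF β hβ
    rw [coeff_smul, hF β hβ, smul_zero]

section SM

variable {R : Type} [CommRing R] {s q : ℕ}

theorem mem_SM {n : ℕ} {F : MvPolynomial (Fin s × Fin q) R} :
    F ∈ SM R s q n ↔ ∀ β, β ∉ D s q n → coeff β F = 0 := Iff.rfl

theorem SM_mono {a b : ℕ} (h : a ≤ b) {F : MvPolynomial (Fin s × Fin q) R}
    (hF : F ∈ SM R s q a) : F ∈ SM R s q b :=
  fun β hβ => hF β fun h1 => hβ (D_mono h h1)

theorem SM_mul {a b : ℕ} {F G : MvPolynomial (Fin s × Fin q) R} (hF : F ∈ SM R s q a)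
    (hG : G ∈ SM R s q b) : F * G ∈ SM R s q (a + b) := by
  classical
  intro β hβ
  rw [coeff_mul]
  apply Finset.sum_eq_zero
  rintro ⟨β1, β2⟩ h
  rw [Finset.HasAntidiagonal.mem_antidiagonal] at h
  by_cases h1 : β1 ∈ D s q a
  · have h2 : β2 ∉ D s q b := by
      intro h2
      apply hβ
      rw [← h]
      exact D_add h1 h2
    rw [hG β2 h2, mul_zero]
  · rw [hF β1 h1, zero_mul]

theorem SM_one : (1 : MvPolynomial (Fin s × Fin q) R) ∈ SM R s q 0 := by
  classical
  intro β hβ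
  rw [coeff_one, if_neg]
  rintro rfl
  apply hβ
  rw [mem_D]
  simp

theorem SM_prod {ι : Type} (T : Finset ι) (n : ι → ℕ) (f : ι → MvPolynomial (Fin s × Fin q) R)
    (hf : ∀ i ∈ T, f i ∈ SM R s q (n i)) : ∏ i ∈ T, f i ∈ SM R s q (∑ i ∈ T, n i) := by
  classical
  induction T using Finset.induction_on with
  | empty => rw [Finset.prod_empty, Finset.sum_empty]; exact SM_one
  | insert a T ha ih =>
    rw [Finset.prod_insert ha, Finset.sum_insert ha]
    exact SM_mul (hf a (Finset.mem_insert_self _ _))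
      (ih fun i hi => hf i (Finset.mem_insert_of_mem hi))

theorem SM_rho_X (z : Fin s × Fin q) : rho R s q (X z) ∈ SM R s q 1 := by
  classical
  rw [rho_X]
  split_ifs with h1 h2
  · exact SM_mono (Nat.zero_le _) SM_one
  · exact Submodule.zero_mem _
  · intro β hβ
    rw [coeff_X, if_neg]
    rintro rfl
    apply hβ
    rw [mem_D]
    refine ⟨by simp, fun z' hz' => ?_⟩
    rw [Finsupp.single_eq_of_ne]
    rintro rfl
    exact h1 hz'

theorem SM_rho_mn (σ : Fin q → Fin s) : rho R s q (mn R σ) ∈ SM R s q q := by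
  have h1 := hom_mn (rho R s q).toRingHom σ
  change rho R s q (mn R σ) = _ at h1
  rw [h1, Matrix.det_apply]
  apply Submodule.sum_mem
  intro τ _
  have h2 : (∏ i : Fin q, (Matrix.of fun a b => (rho R s q).toRingHom (X (σ a, b))) (τ i) i) ∈
      SM R s q (∑ _i : Fin q, 1) := SM_prod _ _ _ fun i _ => SM_rho_X _
  rw [Finset.sum_const, Finset.card_univ, Fintype.card_fin, smul_eq_mul, mul_one] at h2
  rcases Int.units_eq_one_or (Equiv.Perm.sign τ) with h3 | h3
  · rw [h3, one_smul]; exact h2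
  · rw [h3, Units.neg_smul, one_smul]
    exact Submodule.neg_mem _ h2

theorem SM_rho_W {m : ℕ} {f : MvPolynomial (Fin s × Fin q) R} (hf : f ∈ W R s q m) :
    rho R s q f ∈ SM R s q (m * q) := by
  refine Submodule.span_induction (p := fun f _ => rho R s q f ∈ SM R s q (m * q)) ?_ ?_ ?_ ?_ hf
  · rintro _ ⟨σ, rfl⟩
    simp only [_root_.map_prod]
    have h1 : (∏ i : Fin m, rho R s q (mn R (σ i))) ∈ SM R s q (∑ _i : Fin m, q) :=
      SM_prod _ _ _ fun i _ => SM_rho_mn _
    rwa [Finset.sum_const, Finset.card_univ, Fintype.card_fin, smul_eq_mul] at h1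
  · rw [_root_.map_zero]; exact Submodule.zero_mem _
  · intro x y _ _ hx hy
    rw [_root_.map_add]; exact Submodule.add_mem _ hx hy
  · intro a x _ hx
    rw [_root_.map_smul]; exact Submodule.smul_mem _ _ hx

/-- the monomials of degree at most `m` -/
theorem exists_mono (hqs : q ≤ s) {m : ℕ} {β : (Fin s × Fin q) →₀ ℕ} (hβ : β ∈ D s q m) :
    ∃ f ∈ W R s q m, rho R s q f = monomial β 1 := by
  classical
  rw [mem_D] at hβ
  have hd : β.degree = ∑ z, β z := Finsupp.degree_eq_sum β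
  refine ⟨mn R (io0 hqs) ^ (m - β.degree) *
    ∏ z : Fin s × Fin q, mn R (Function.update (io0 hqs) z.2 z.1) ^ β z, ?_, ?_⟩
  · have h1 : mn R (io0 hqs) ^ (m - β.degree) ∈ W R s q ((m - β.degree) * 1) :=
      W_pow (mn_mem _) _
    have h2 : (∏ z : Fin s × Fin q, mn R (Function.update (io0 hqs) z.2 z.1) ^ β z) ∈
        W R s q (∑ z : Fin s × Fin q, β z * 1) := W_prod _ _ _ fun z _ => W_pow (mn_mem _) _
    have h3 := W_mul h1 h2
    have h4 : (m - β.degree) * 1 + ∑ z : Fin s × Fin q, β z * 1 = m := by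
      simp only [mul_one]
      rw [← hd]
      exact Nat.sub_add_cancel hβ.1
    rwa [h4] at h3
  · rw [_root_.map_mul, _root_.map_pow, rho_mn0, one_pow, one_mul, _root_.map_prod,
      MvPolynomial.monomial_eq, C_1, one_mul, Finsupp.prod_fintype _ _ (fun i => pow_zero _)]
    refine Finset.prod_congr rfl fun z _ => ?_
    rw [_root_.map_pow]
    by_cases hz : (z.1 : ℕ) < q
    · rw [hβ.2 z hz, pow_zero, pow_zero]
    · rw [rho_mn1 hqs z (not_lt.1 hz)]

end SM

section coord

variable {F : Type} [Field F] [CharZero F] {s q : ℕ}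

/-- the coordinate functionals -/
noncomputable def ph (F : Type) [Field F] (s q m : ℕ) (β : (Fin s × Fin q) →₀ ℕ) :
    Module.Dual F (W F s q m) :=
  (MvPolynomial.lcoeff F β).comp ((rho F s q).toLinearMap.comp (W F s q m).subtype)

theorem ph_apply {m : ℕ} (β : (Fin s × Fin q) →₀ ℕ) (f : W F s q m) :
    ph F s q m β f = coeff β (rho F s q f.1) := rfl

theorem exists_coord (hqs : q ≤ s) (m : ℕ) : ∃ (Γ : Finset ((Fin s × Fin q) →₀ ℕ))
    (b : ((Fin s × Fin q) →₀ ℕ) → MvPolynomial (Fin s × Fin q) F),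
    D s q m ⊆ Γ ∧ Γ ⊆ D s q (m * q) ∧ (∀ β ∈ Γ, b β ∈ W F s q m) ∧
    (∀ β ∈ Γ, ∀ β' ∈ Γ, coeff β' (rho F s q (b β)) = if β' = β then 1 else 0) ∧
    ∀ f ∈ W F s q m, f = ∑ β ∈ Γ, C (coeff β (rho F s q f)) * b β := by
  classical
  have hsub : ((D s q m : Finset _) : Set ((Fin s × Fin q) →₀ ℕ)) ⊆ (D s q (m * q) : Finset _) := by
    intro β hβ
    obtain ⟨f, hf, hf1⟩ := exists_mono (R := F) hqs (Finset.mem_coe.1 hβ)
    by_contra h0
    have h1 := SM_rho_W hf β (fun h => h0 (Finset.mem_coe.2 h))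
    rw [hf1, coeff_monomial, if_pos rfl] at h1
    exact one_ne_zero h1
  have hind : LinearIndepOn F (ph F s q m) ((D s q m : Finset _) : Set ((Fin s × Fin q) →₀ ℕ)) := by
    rw [linearIndepOn_finset_iff]
    intro a ha β hβ
    obtain ⟨f, hf, hf1⟩ := exists_mono (R := F) hqs hβ
    have h1 := congrArg (fun L : Module.Dual F (W F s q m) => L ⟨f, hf⟩) ha
    simp only [LinearMap.sum_apply, LinearMap.smul_apply, ph_apply, hf1, coeff_monomial,
      smul_eq_mul, mul_ite, mul_one, mul_zero, LinearMap.zero_apply] at h1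
    rwa [Finset.sum_ite_eq, if_pos hβ] at h1
  obtain ⟨G, hG1, hG2, hG3, hG4⟩ := exists_linearIndepOn_extension hind hsub
  have hfin : G.Finite := (Finset.finite_toSet _).subset hG1
  set Γ : Finset ((Fin s × Fin q) →₀ ℕ) := hfin.toFinset with hΓ
  have hΓG : ∀ β, β ∈ Γ ↔ β ∈ G := fun β => hfin.mem_toFinset
  let κ : W F s q m →ₗ[F] (Γ → F) := LinearMap.pi fun β => ph F s q m β.1
  have hκ : ∀ f β, κ f β = coeff β.1 (rho F s q f.1) := fun f β => rfl
  have hinj : Function.Injective κ := by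
    rw [← LinearMap.ker_eq_bot, LinearMap.ker_eq_bot']
    intro f hf
    have h1 : ∀ β ∈ D s q (m * q), ph F s q m β f = 0 := by
      intro β hβ
      have h2 : ph F s q m β ∈ Submodule.span F (ph F s q m '' G) :=
        hG3 ⟨β, Finset.mem_coe.2 hβ, rfl⟩
      refine Submodule.span_induction (p := fun L _ => L f = 0) ?_ ?_ ?_ ?_ h2
      · rintro _ ⟨γ, hγ, rfl⟩
        exact congrFun hf ⟨γ, (hΓG γ).2 hγ⟩
      · rfl
      · intro x y _ _ hx hy
        rw [LinearMap.add_apply, hx, hy, add_zero]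
      · intro a x _ hx
        rw [LinearMap.smul_apply, hx, smul_zero]
    have h3 : rho F s q f.1 = 0 := by
      ext β
      rw [coeff_zero]
      by_cases hβ : β ∈ D s q (m * q)
      · exact h1 β hβ
      · exact SM_rho_W f.2 β hβ
    exact Subtype.ext (rho_inj hqs f.2 h3)
  have hfd : FiniteDimensional F (W F s q m) := FiniteDimensional.of_injective κ hinj
  have hcard : Module.finrank F (W F s q m) = Module.finrank F (Γ → F) := by
    apply le_antisymm
    · exact LinearMap.finrank_le_finrank_of_injective hinj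
    · rw [Module.finrank_fintype_fun_eq_card, ← Subspace.dual_finrank_eq]
      have h4 : LinearIndependent F (fun β : Γ => ph F s q m β.1) := by
        have h5 : LinearIndependent F (fun β : G => ph F s q m β.1) := hG4
        exact h5.comp (fun β : Γ => (⟨β.1, (hΓG β.1).1 β.2⟩ : G)) (by
          intro x y hxy
          exact Subtype.ext (congrArg (fun t : G => t.1) hxy))
      exact h4.fintype_card_le_finrank
  have hsurj : Function.Surjective κ :=
    (LinearMap.injective_iff_surjective_of_finrank_eq_finrank hcard).1 hinj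
  let e : W F s q m ≃ₗ[F] (Γ → F) := LinearEquiv.ofBijective κ ⟨hinj, hsurj⟩
  have he : ∀ f, e f = κ f := fun f => rfl
  let b : ((Fin s × Fin q) →₀ ℕ) → MvPolynomial (Fin s × Fin q) F := fun β =>
    if h : β ∈ Γ then (e.symm (Pi.single ⟨β, h⟩ 1)).1 else 0
  have hb : ∀ (β) (h : β ∈ Γ), b β = (e.symm (Pi.single ⟨β, h⟩ 1)).1 := fun β h => dif_pos h
  refine ⟨Γ, b, ?_, ?_, ?_, ?_, ?_⟩
  · intro β hβ
    exact (hΓG β).2 (hG2 (Finset.mem_coe.2 hβ))
  · intro β hβ
    exact Finset.mem_coe.1 (hG1 ((hΓG β).1 hβ))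
  · intro β hβ
    rw [hb β hβ]
    exact (e.symm (Pi.single ⟨β, hβ⟩ 1)).2
  · intro β hβ β' hβ'
    rw [hb β hβ]
    have h1 := congrFun (e.apply_symm_apply (Pi.single (⟨β, hβ⟩ : Γ) (1 : F))) ⟨β', hβ'⟩
    rw [he, hκ] at h1
    rw [h1, Pi.single_apply]
    by_cases h : β' = β
    · rw [if_pos h, if_pos (Subtype.ext h)]
    · rw [if_neg h, if_neg (fun h' => h (congrArg Subtype.val h'))]
  · intro f hf
    have h1 : (⟨f, hf⟩ : W F s q m) = ∑ β : Γ, (κ ⟨f, hf⟩ β) • e.symm (Pi.single β 1) := by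
      apply e.injective
      rw [map_sum]
      simp only [_root_.map_smul, LinearEquiv.apply_symm_apply]
      rw [he]
      funext β
      rw [Finset.sum_apply]
      simp [Pi.single_apply]
    have h2 := congrArg Subtype.val h1
    rw [Submodule.coe_sum] at h2
    change f = _ at h2
    rw [← Finset.sum_coe_sort Γ]
    refine h2.trans (Finset.sum_congr rfl fun β _ => ?_)
    rw [hb β.1 β.2, Submodule.coe_smul, MvPolynomial.smul_eq_C_mul]
    rfl

theorem expand {m : ℕ} {Γ : Finset ((Fin s × Fin q) →₀ ℕ)}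
    {b : ((Fin s × Fin q) →₀ ℕ) → MvPolynomial (Fin s × Fin q) F}
    (hb : ∀ f ∈ W F s q m, f = ∑ β ∈ Γ, C (coeff β (rho F s q f)) * b β)
    {S : Type} [CommRing S] (φ : F →+* S) {f : MvPolynomial (Fin s × Fin q) S}
    (hf : f ∈ W S s q m) :
    f = ∑ β ∈ Γ, C (coeff β (rho S s q f)) * MvPolynomial.map φ (b β) := by
  refine Submodule.span_induction (p := fun f _ =>
    f = ∑ β ∈ Γ, C (coeff β (rho S s q f)) * MvPolynomial.map φ (b β)) ?_ ?_ ?_ ?_ hf
  · rintro _ ⟨σ, rfl⟩
    have h1 : (∏ i, mn F (σ i)) ∈ W F s q m := Submodule.subset_span ⟨σ, rfl⟩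
    have h2 := congrArg (MvPolynomial.map φ) (hb _ h1)
    have h3 : MvPolynomial.map φ (∏ i, mn F (σ i)) = ∏ i, mn S (σ i) := by
      rw [_root_.map_prod]
      exact Finset.prod_congr rfl fun i _ => map_mn φ _
    have h4 : ∀ β, φ (coeff β (rho F s q (∏ i, mn F (σ i)))) =
        coeff β (rho S s q (∏ i, mn S (σ i))) := by
      intro β
      rw [← h3, ← map_rho, coeff_map]
    simp only [h3, map_sum, _root_.map_mul, map_C, h4] at h2
    exact h2
  · simp
  · intro x y _ _ hx hy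
    conv_lhs => rw [hx, hy]
    rw [← Finset.sum_add_distrib]
    refine Finset.sum_congr rfl fun β _ => ?_
    rw [_root_.map_add, coeff_add, C_add, add_mul]
  · intro a x _ hx
    conv_lhs => rw [hx]
    rw [Finset.smul_sum]
    refine Finset.sum_congr rfl fun β _ => ?_
    rw [_root_.map_smul, coeff_smul, smul_eq_mul, C_mul, MvPolynomial.smul_eq_C_mul, mul_assoc]

end coord

end Pool.Agent.Helper42.GR
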