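import Pool.Agent.Helper42.GR.Coord

/-!
Project GR (helper9), package A1 (helper42): the determinant of the representation of `GL_s` on the
forms of weight `m`.
-/

set_option autoImplicit false
set_option linter.unusedSectionVars false

namespace Pool.Agent.Helper42.GR

open MvPolynomial Matrix Pool.Agent.Helper9.GR

section sb

variable {R : Type} [CommRing R] {s q : ℕ}

theorem sb_X (h : Matrix (Fin s) (Fin s) R) (z : Fin s × Fin q) :
    sb h (X z) = ∑ l, C (h z.1 l) * X (l, z.2) := aeval_X _ _

theorem sb_C (h : Matrix (Fin s) (Fin s) R) (c : R) :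
    sb h (C c : MvPolynomial (Fin s × Fin q) R) = C c := by
  unfold sb
  rw [aeval_C]
  rfl

theorem sb_sb (h h' : Matrix (Fin s) (Fin s) R) (f : MvPolynomial (Fin s × Fin q) R) :
    sb h' (sb h f) = sb (h * h') f := by
  have : (sb h').comp (sb h) = (sb (h * h') : MvPolynomial (Fin s × Fin q) R →ₐ[R] _) := by
    apply MvPolynomial.algHom_ext
    intro z
    rw [AlgHom.comp_apply, sb_X, sb_X, map_sum]
    simp only [_root_.map_mul, sb_C, sb_X, Matrix.mul_apply, map_sum, Finset.sum_mul,
      Finset.mul_sum]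
    rw [Finset.sum_comm]
    refine Finset.sum_congr rfl fun l _ => Finset.sum_congr rfl fun i _ => ?_
    ring
  exact AlgHom.congr_fun this f

theorem sb_one (f : MvPolynomial (Fin s × Fin q) R) : sb (1 : Matrix (Fin s) (Fin s) R) f = f := by
  have : (sb (1 : Matrix (Fin s) (Fin s) R) : MvPolynomial (Fin s × Fin q) R →ₐ[R] _) =
      AlgHom.id R _ := by
    apply MvPolynomial.algHom_ext
    intro z
    rw [sb_X, AlgHom.id_apply]
    simp [Matrix.one_apply]
  rw [this]; rfl

theorem sb_mn (h : Matrix (Fin s) (Fin s) R) (σ : Fin q → Fin s) :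
    sb h (mn R σ) = ∑ τ : Fin q → Fin s, (∏ a, h (σ a) (τ a)) • mn R τ := by
  classical
  have h1 := hom_mn (sb h : MvPolynomial (Fin s × Fin q) R →ₐ[R] _).toRingHom σ
  change sb h (mn R σ) = _ at h1
  rw [h1]
  have h2 : (Matrix.of fun a b => (sb h : MvPolynomial (Fin s × Fin q) R →ₐ[R] _).toRingHom
      (X (σ a, b))) = fun a => ∑ l : Fin s, h (σ a) l • (fun b => X (l, b) :
        Fin q → MvPolynomial (Fin s × Fin q) R) := by
    funext a b
    change sb h (X (σ a, b)) = _
    rw [sb_X, Finset.sum_apply]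
    refine Finset.sum_congr rfl fun l _ => ?_
    rw [Pi.smul_apply, MvPolynomial.smul_eq_C_mul]
  have h3 : ∀ M : Matrix (Fin q) (Fin q) (MvPolynomial (Fin s × Fin q) R),
      M.det = Matrix.detRowAlternating M := fun M => rfl
  rw [h2, h3]
  have h4 := MultilinearMap.map_sum
    ((Matrix.detRowAlternating (R := MvPolynomial (Fin s × Fin q) R)
      (n := Fin q)).toMultilinearMap.restrictScalars R)
    (fun a l => h (σ a) l • (fun b => X (l, b) : Fin q → MvPolynomial (Fin s × Fin q) R))
  refine h4.trans (Finset.sum_congr rfl fun τ _ => ?_)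
  have h5 := MultilinearMap.map_smul_univ
    ((Matrix.detRowAlternating (R := MvPolynomial (Fin s × Fin q) R)
      (n := Fin q)).toMultilinearMap.restrictScalars R)
    (fun a => h (σ a) (τ a)) (fun a b => X (τ a, b))
  exact h5

theorem sb_mem (h : Matrix (Fin s) (Fin s) R) {m : ℕ} {f : MvPolynomial (Fin s × Fin q) R}
    (hf : f ∈ W R s q m) : sb h f ∈ W R s q m := by
  refine Submodule.span_induction (p := fun f _ => sb h f ∈ W R s q m) ?_ ?_ ?_ ?_ hf
  · rintro _ ⟨σ, rfl⟩
    rw [_root_.map_prod]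
    have h1 : (∏ i : Fin m, sb h (mn R (σ i))) ∈ W R s q (∑ _i : Fin m, 1) := by
      apply W_prod
      intro i _
      rw [sb_mn]
      exact Submodule.sum_mem _ fun τ _ => Submodule.smul_mem _ _ (mn_mem τ)
    simpa using h1
  · rw [_root_.map_zero]; exact Submodule.zero_mem _
  · intro x y _ _ hx hy
    rw [_root_.map_add]; exact Submodule.add_mem _ hx hy
  · intro a x _ hx
    rw [_root_.map_smul]; exact Submodule.smul_mem _ _ hx

theorem sb_scalar (u : R) {m : ℕ} {f : MvPolynomial (Fin s × Fin q) R} (hf : f ∈ W R s q m) :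
    sb (Matrix.diagonal fun _ => u) f = C (u ^ (m * q)) * f := by
  refine Submodule.span_induction (p := fun f _ =>
    sb (Matrix.diagonal fun _ => u) f = C (u ^ (m * q)) * f) ?_ ?_ ?_ ?_ hf
  · rintro _ ⟨σ, rfl⟩
    rw [_root_.map_prod]
    have h1 : ∀ τ : Fin q → Fin s, sb (Matrix.diagonal fun _ => u) (mn R τ) =
        C (u ^ q) * mn R τ := by
      intro τ
      have h1 := hom_mn (sb (Matrix.diagonal fun _ => u) :
        MvPolynomial (Fin s × Fin q) R →ₐ[R] _).toRingHom τ
      change sb (Matrix.diagonal fun _ => u) (mn R τ) = _ at h1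
      rw [h1]
      have h2 : (Matrix.of fun a b => (sb (Matrix.diagonal fun _ => u) :
          MvPolynomial (Fin s × Fin q) R →ₐ[R] _).toRingHom (X (τ a, b))) =
          (C u : MvPolynomial (Fin s × Fin q) R) • Matrix.of fun a b => X (τ a, b) := by
        ext1 a b
        change sb (Matrix.diagonal fun _ => u) (X (τ a, b)) = _
        rw [sb_X, Finset.sum_eq_single (τ a)]
        · rw [Matrix.diagonal_apply_eq]
          rfl
        · intro l _ hl
          rw [Matrix.diagonal_apply_ne _ (Ne.symm hl), C_0, zero_mul]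
        · intro h; exact absurd (Finset.mem_univ _) h
      rw [h2, Matrix.det_smul, Fintype.card_fin, C_pow]
      rfl
    rw [Finset.prod_congr rfl fun i _ => h1 (σ i), Finset.prod_mul_distrib, Finset.prod_const,
      Finset.card_univ, Fintype.card_fin, ← C_pow, ← pow_mul, mul_comm q m]
  · simp
  · intro x y _ _ hx hy
    rw [_root_.map_add, hx, hy]; ring
  · intro a x _ hx
    rw [_root_.map_smul, hx, MvPolynomial.smul_eq_C_mul, MvPolynomial.smul_eq_C_mul]; ring

end sb

section MM

variable {K : Type} [Field K] {s q m : ℕ}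

/-- coordinates on the forms of weight `m` -/
structure IsC (K : Type) [Field K] (s q m : ℕ) (Γ : Finset ((Fin s × Fin q) →₀ ℕ))
    (b : ((Fin s × Fin q) →₀ ℕ) → MvPolynomial (Fin s × Fin q) K) : Prop where
  mem : ∀ β ∈ Γ, b β ∈ W K s q m
  coe : ∀ β ∈ Γ, ∀ β' ∈ Γ, coeff β' (rho K s q (b β)) = if β' = β then 1 else 0
  exp : ∀ f ∈ W K s q m, f = ∑ β ∈ Γ, C (coeff β (rho K s q f)) * b β

variable {Γ : Finset ((Fin s × Fin q) →₀ ℕ)}
    {b : ((Fin s × Fin q) →₀ ℕ) → MvPolynomial (Fin s × Fin q) K}

/-- coefficient matrix -/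
noncomputable def cmat (Γ : Finset ((Fin s × Fin q) →₀ ℕ)) {B : Type}
    (f : B → MvPolynomial (Fin s × Fin q) K) : Matrix Γ B K :=
  Matrix.of fun β i => coeff β.1 (rho K s q (f i))

/-- the matrix of the substitution on the forms of weight `m` -/
noncomputable def MM (Γ : Finset ((Fin s × Fin q) →₀ ℕ))
    (b : ((Fin s × Fin q) →₀ ℕ) → MvPolynomial (Fin s × Fin q) K)
    (h : Matrix (Fin s) (Fin s) K) : Matrix Γ Γ K :=
  cmat Γ fun γ : Γ => sb h (b γ.1)

theorem MM_mul_cmat (hC : IsC K s q m Γ b) (h : Matrix (Fin s) (Fin s) K) {B : Type}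
    (f : B → MvPolynomial (Fin s × Fin q) K) (hf : ∀ i, f i ∈ W K s q m) :
    MM Γ b h * cmat Γ f = cmat Γ (fun i => sb h (f i)) := by
  ext β i
  rw [Matrix.mul_apply]
  change ∑ γ : Γ, coeff β.1 (rho K s q (sb h (b γ.1))) * coeff γ.1 (rho K s q (f i)) =
    coeff β.1 (rho K s q (sb h (f i)))
  conv_rhs => rw [hC.exp _ (hf i), map_sum, map_sum, coeff_sum]
  rw [← Finset.sum_coe_sort Γ]
  refine Finset.sum_congr rfl fun γ _ => ?_
  rw [_root_.map_mul, sb_C, _root_.map_mul, rho_C, coeff_C_mul, mul_comm]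

theorem MM_mul (hC : IsC K s q m Γ b) (h h' : Matrix (Fin s) (Fin s) K) :
    MM Γ b h' * MM Γ b h = MM Γ b (h * h') := by
  have := MM_mul_cmat hC h' (fun γ : Γ => sb h (b γ.1)) (fun γ => sb_mem h (hC.mem _ γ.2))
  unfold MM
  unfold MM at this
  rw [this]
  simp only [sb_sb]

theorem MM_one (hC : IsC K s q m Γ b) : MM Γ b (1 : Matrix (Fin s) (Fin s) K) = 1 := by
  ext β γ
  change coeff β.1 (rho K s q (sb 1 (b γ.1))) = _
  rw [sb_one, hC.coe _ γ.2 _ β.2, Matrix.one_apply]
  by_cases h : β = γ
  · rw [h]; simp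
  · rw [if_neg h, if_neg fun h' => h (Subtype.ext h')]

theorem MM_scalar (hC : IsC K s q m Γ b) (u : K) :
    (MM Γ b (Matrix.diagonal fun _ => u)).det = u ^ (m * q * Γ.card) := by
  have h1 : MM Γ b (Matrix.diagonal fun _ => u) = (u ^ (m * q)) • (1 : Matrix Γ Γ K) := by
    ext β γ
    change coeff β.1 (rho K s q (sb (Matrix.diagonal fun _ => u) (b γ.1))) = _
    rw [sb_scalar u (hC.mem _ γ.2), _root_.map_mul, rho_C, coeff_C_mul,
      hC.coe _ γ.2 _ β.2, Matrix.smul_apply, Matrix.one_apply, smul_eq_mul]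
    by_cases h : β = γ
    · rw [h]; simp
    · rw [if_neg h, if_neg fun h' => h (Subtype.ext h')]
  rw [h1, Matrix.det_smul, Matrix.det_one, mul_one, Fintype.card_coe, ← pow_mul]

variable [CharZero K]

theorem det_MM_mul (hC : IsC K s q m Γ b) (h h' : Matrix (Fin s) (Fin s) K) :
    (MM Γ b (h * h')).det = (MM Γ b h).det * (MM Γ b h').det := by
  rw [← MM_mul hC, Matrix.det_mul, mul_comm]

theorem det_MM_perm (hC : IsC K s q m Γ b) (u : Fin s → K) (σ : Equiv.Perm (Fin s)) :
    (MM Γ b (Matrix.diagonal (u ∘ σ))).det = (MM Γ b (Matrix.diagonal u)).det := by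
  have h1 : (σ.toPEquiv.toMatrix : Matrix (Fin s) (Fin s) K) * (σ.symm.toPEquiv.toMatrix) = 1 := by
    rw [← PEquiv.toMatrix_trans, ← Equiv.toPEquiv_trans, Equiv.self_trans_symm,
      Equiv.toPEquiv_refl, PEquiv.toMatrix_refl]
  have h2 : Matrix.diagonal (u ∘ σ) =
      (σ.toPEquiv.toMatrix : Matrix (Fin s) (Fin s) K) * Matrix.diagonal u *
        (σ.symm.toPEquiv.toMatrix) := by
    rw [PEquiv.toMatrix_toPEquiv_mul, PEquiv.mul_toMatrix_toPEquiv, Equiv.symm_symm,
      Matrix.submatrix_submatrix]
    ext i j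
    simp [Matrix.diagonal_apply]
  have h3 : (MM Γ b (σ.toPEquiv.toMatrix : Matrix (Fin s) (Fin s) K)).det *
      (MM Γ b (σ.symm.toPEquiv.toMatrix : Matrix (Fin s) (Fin s) K)).det = 1 := by
    rw [← det_MM_mul hC, h1, MM_one hC, Matrix.det_one]
  rw [h2, det_MM_mul hC, det_MM_mul hC, mul_right_comm, h3, one_mul]

theorem det_MM_diagonal (hC : IsC K s q m Γ b) (u : Fin s → K) :
    (MM Γ b (Matrix.diagonal u)).det ^ s = (Matrix.diagonal u).det ^ (m * q * Γ.card) := by
  rcases Nat.eq_zero_or_pos s with hs | hs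
  · subst hs
    simp
  let i0 : Fin s := ⟨0, hs⟩
  let Dg : (Fin s → K) →* K :=
    { toFun := fun u => (MM Γ b (Matrix.diagonal u)).det
      map_one' := by
        have : Matrix.diagonal (1 : Fin s → K) = 1 := Matrix.diagonal_one
        rw [this, MM_one hC, Matrix.det_one]
      map_mul' := by
        intro u v
        have : Matrix.diagonal (u * v) = Matrix.diagonal u * Matrix.diagonal v := by
          rw [Matrix.diagonal_mul_diagonal]; rfl
        rw [this, det_MM_mul hC] }
  have hDg : ∀ u, Dg u = (MM Γ b (Matrix.diagonal u)).det := fun u => rfl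
  have h1 : ∀ (i : Fin s) (a : K), Dg (Pi.mulSingle i a) = Dg (Pi.mulSingle i0 a) := by
    intro i a
    have h2 := det_MM_perm hC (Pi.mulSingle i0 a) (Equiv.swap i i0)
    rw [hDg, hDg, ← h2]
    congr 3
    funext j
    rw [Function.comp_apply]
    by_cases hj : j = i
    · subst hj
      rw [Equiv.swap_apply_left, Pi.mulSingle_eq_same, Pi.mulSingle_eq_same]
    · rw [Pi.mulSingle_eq_of_ne hj, Pi.mulSingle_eq_of_ne]
      intro h3
      apply hj
      exact (Equiv.swap i i0).injective (h3.trans (Equiv.swap_apply_left i i0).symm)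
  have h2 : ∀ u : Fin s → K, Dg u = ∏ i, Dg (Pi.mulSingle i0 (u i)) := by
    intro u
    conv_lhs => rw [← Finset.univ_prod_mulSingle u]
    rw [_root_.map_prod]
    exact Finset.prod_congr rfl fun i _ => h1 i _
  have h3 : ∀ a : K, Dg (Pi.mulSingle i0 a) ^ s = a ^ (m * q * Γ.card) := by
    intro a
    have h4 := h2 (fun _ => a)
    rw [Finset.prod_const, Finset.card_univ, Fintype.card_fin, hDg, MM_scalar hC] at h4
    exact h4.symm
  rw [← hDg, h2, ← Finset.prod_pow, Matrix.det_diagonal, ← Finset.prod_pow]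
  exact Finset.prod_congr rfl fun i _ => h3 _

theorem det_MM_transvection (hC : IsC K s q m Γ b) {i j : Fin s} (hij : i ≠ j) (c : K) :
    (MM Γ b (Matrix.transvection i j c)).det = 1 := by
  have h0 : (MM Γ b (Matrix.transvection i j c)).det * (MM Γ b (Matrix.transvection i j (-c))).det
      = 1 := by
    rw [← det_MM_mul hC, Matrix.transvection_mul_transvection_same i j hij, add_neg_cancel,
      Matrix.transvection_zero, MM_one hC, Matrix.det_one]
  have h1 : (MM Γ b (Matrix.transvection i j c)).det ≠ 0 := left_ne_zero_of_mul_eq_one h0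
  have h2 : (MM Γ b (Matrix.transvection i j (c + c))).det =
      (MM Γ b (Matrix.transvection i j c)).det * (MM Γ b (Matrix.transvection i j c)).det := by
    rw [← det_MM_mul hC, Matrix.transvection_mul_transvection_same i j hij]
  let u : Fin s → K := Function.update 1 i 2
  let v : Fin s → K := Function.update 1 i 2⁻¹
  have huv : Matrix.diagonal u * Matrix.diagonal v = 1 := by
    rw [Matrix.diagonal_mul_diagonal]
    have : (fun l => u l * v l) = fun _ => (1 : K) := by
      ext l
      by_cases hl : l = i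
      · subst hl; simp [u, v]
      · simp [u, v, hl]
    rw [this, Matrix.diagonal_one]
  have h3 : Matrix.transvection i j (c + c) =
      Matrix.diagonal u * Matrix.transvection i j c * Matrix.diagonal v := by
    ext a b
    rw [Matrix.mul_diagonal, Matrix.diagonal_mul]
    unfold Matrix.transvection
    rw [Matrix.add_apply, Matrix.add_apply, Matrix.one_apply, Matrix.single_apply,
      Matrix.single_apply]
    by_cases hab : a = b
    · subst hab
      have : ¬ (i = a ∧ j = a) := fun h => hij (h.1.trans h.2.symm)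
      rw [if_neg this, if_neg this, if_pos rfl, add_zero, mul_one]
      by_cases hl : a = i
      · subst hl; simp [u, v]
      · simp [u, v, hl]
    · rw [if_neg hab, zero_add, zero_add]
      by_cases h : i = a ∧ j = b
      · rw [if_pos h, if_pos h]
        obtain ⟨rfl, rfl⟩ := h
        have hji : ¬ j = i := fun h => hij h.symm
        simp only [u, v, Function.update_self, Function.update_of_ne hji, Pi.one_apply, mul_one]
        ring
      · rw [if_neg h, if_neg h, mul_zero, zero_mul]
  have h4 : (MM Γ b (Matrix.transvection i j (c + c))).det =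
      (MM Γ b (Matrix.transvection i j c)).det := by
    rw [h3, det_MM_mul hC, det_MM_mul hC, mul_right_comm, ← det_MM_mul hC, huv, MM_one hC,
      Matrix.det_one, one_mul]
  rw [h4] at h2
  exact (mul_eq_left₀ h1).1 h2.symm

/-- **The determinant of the representation.** -/
theorem det_MM (hC : IsC K s q m Γ b) (h : Matrix (Fin s) (Fin s) K) (hh : h.det ≠ 0) :
    (MM Γ b h).det ^ s = h.det ^ (m * q * Γ.card) := by
  refine Matrix.diagonal_transvection_induction_of_det_ne_zero
    (fun h => (MM Γ b h).det ^ s = h.det ^ (m * q * Γ.card)) h hh ?_ ?_ ?_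
  · intro D _
    exact det_MM_diagonal hC D
  · intro t
    change (MM Γ b (Matrix.transvection t.i t.j t.c)).det ^ _ = t.toMatrix.det ^ _
    rw [det_MM_transvection hC t.hij, t.det, one_pow, one_pow]
  · intro x y _ _ h1 h2
    rw [det_MM_mul hC, mul_pow, h1, h2, Matrix.det_mul, mul_pow]

end MM

end Pool.Agent.Helper42.GR
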