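import Pool.Agent.Helper42.GR.Det
import Pool.Agent.Helper90.FJ.Count

/-!
Project GR (helper9), package A1 (helper42): generation of the forms of large weight.
-/

set_option autoImplicit false
set_option linter.unusedSectionVars false

namespace Pool.Agent.Helper42.GR

open FF Module MvPolynomial Matrix Pool.Agent.Helper9.GR Pool.Agent.Helper9.FJ
open Pool.Agent.Helper90.FJ (theta io cst io_apply io_injective io_cst theta_cst theta_surjective
  theta_eq_zero exists_lift theta_eval io_eval ge_sum ge_one ge_prod ge_max ge_det ge_mul ge_add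
  ge_neg ge_zero ge_mono)

section tau

/-- the substitution `x ↦ x adj(x_ι)` -/
noncomputable def tau (R : Type) [CommRing R] {s q : ℕ} (ι : Fin q → Fin s) :
    MvPolynomial (Fin s × Fin q) R →ₐ[R] MvPolynomial (Fin s × Fin q) R :=
  aeval fun z => mn R (Function.update ι z.2 z.1)

variable {R : Type} [CommRing R] {s q : ℕ}

theorem tau_X (ι : Fin q → Fin s) (z : Fin s × Fin q) :
    tau R ι (X z) = mn R (Function.update ι z.2 z.1) := aeval_X _ _

theorem tau_mn (ι σ : Fin q → Fin s) : tau R ι (mn R σ) = mn R σ * mn R ι ^ (q - 1) := by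
  have h1 := hom_mn (tau R ι).toRingHom σ
  change tau R ι (mn R σ) = _ at h1
  rw [h1]
  set A : Matrix (Fin q) (Fin q) (MvPolynomial (Fin s × Fin q) R) :=
    Matrix.of fun a b => X (ι a, b) with hA
  set B : Matrix (Fin q) (Fin q) (MvPolynomial (Fin s × Fin q) R) :=
    Matrix.of fun a b => X (σ a, b) with hB
  have h2 : (Matrix.of fun a b => (tau R ι).toRingHom (X (σ a, b))) = B * A.adjugate := by
    ext1 a b
    change tau R ι (X (σ a, b)) = _
    rw [tau_X, Matrix.mul_apply]
    have h3 : mn R (Function.update ι b (σ a)) = (A.updateRow b (B a)).det := by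
      rw [mn]
      congr 1
      ext1 i j
      rw [Matrix.updateRow_apply]
      by_cases hi : i = b
      · subst hi
        rw [if_pos rfl]
        simp [hB]
      · rw [if_neg hi]
        simp [hA, Function.update_of_ne hi]
    rw [h3, ← Matrix.cramer_transpose_apply]
    have h4 : B a = ∑ l, B a l • (Pi.single l 1 : Fin q → MvPolynomial (Fin s × Fin q) R) := by
      funext l
      rw [Finset.sum_apply]
      simp [Pi.single_apply]
    conv_lhs => rw [h4]
    rw [map_sum, Finset.sum_apply]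
    refine Finset.sum_congr rfl fun l _ => ?_
    rw [_root_.map_smul, Pi.smul_apply, smul_eq_mul]
    rfl
  rw [h2, Matrix.det_mul, Matrix.det_adjugate, Fintype.card_fin]
  rfl

theorem tau_W (ι : Fin q → Fin s) {m : ℕ} {f : MvPolynomial (Fin s × Fin q) R}
    (hf : f ∈ W R s q m) : tau R ι f = f * mn R ι ^ ((q - 1) * m) := by
  refine Submodule.span_induction (p := fun f _ => tau R ι f = f * mn R ι ^ ((q - 1) * m))
    ?_ ?_ ?_ ?_ hf
  · rintro _ ⟨σ, rfl⟩
    rw [_root_.map_prod, Finset.prod_congr rfl fun i _ => tau_mn ι (σ i),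
      Finset.prod_mul_distrib, Finset.prod_const, Finset.card_univ, Fintype.card_fin, ← pow_mul]
  · simp
  · intro x y _ _ hx hy
    rw [_root_.map_add, hx, hy]; ring
  · intro a x _ hx
    rw [_root_.map_smul, hx, MvPolynomial.smul_eq_C_mul, MvPolynomial.smul_eq_C_mul]; ring

theorem tau_hom (ι : Fin q → Fin s) {d : ℕ} {f : MvPolynomial (Fin s × Fin q) R}
    (hf : f.IsHomogeneous d) : tau R ι f ∈ W R s q d := by
  rw [f.as_sum, map_sum]
  apply Submodule.sum_mem
  intro α hα
  have h1 : α.degree = d := by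
    by_contra h0
    exact (mem_support_iff.1 hα) (hf.coeff_eq_zero h0)
  rw [MvPolynomial.monomial_eq, _root_.map_mul]
  have h2 : tau R ι (C (coeff α f)) = C (coeff α f) := by
    unfold tau
    rw [aeval_C]
    rfl
  rw [h2, ← MvPolynomial.smul_eq_C_mul, Finsupp.prod_fintype _ _ (fun i => pow_zero _),
    _root_.map_prod]
  apply Submodule.smul_mem
  have h3 : (∏ z : Fin s × Fin q, tau R ι (X z ^ α z)) ∈ W R s q (∑ z, α z * 1) := by
    apply W_prod
    intro z _
    rw [_root_.map_pow, tau_X]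
    exact W_pow (mn_mem _) _
  simp only [mul_one] at h3
  rwa [← Finsupp.degree_eq_sum, h1] at h3

end tau

section comp

variable {R : Type} [CommRing R] {I : Type} [Fintype I] [DecidableEq I]

/-- The forms of degree `m + k` in the ideal which is generated by the forms `V` of degree `k`. -/
theorem component_mem {V : Set (MvPolynomial I R)} {k : ℕ} (hV : ∀ v ∈ V, v.IsHomogeneous k)
    (m : ℕ) {f : MvPolynomial I R} (hf : f ∈ Ideal.span V) :
    homogeneousComponent (m + k) f ∈ Submodule.span R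
      {g | ∃ v ∈ V, ∃ h : MvPolynomial I R, h.IsHomogeneous m ∧ g = v * h} := by
  have key : ∀ a : MvPolynomial I R, homogeneousComponent (m + k) (a * f) ∈ Submodule.span R
      {g | ∃ v ∈ V, ∃ h : MvPolynomial I R, h.IsHomogeneous m ∧ g = v * h} := by
    refine Submodule.span_induction (p := fun f _ => ∀ a : MvPolynomial I R,
      homogeneousComponent (m + k) (a * f) ∈
      Submodule.span R {g | ∃ v ∈ V, ∃ h : MvPolynomial I R, h.IsHomogeneous m ∧ g = v * h})
      ?_ ?_ ?_ ?_ hf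
    · intro v hv a
      induction a using MvPolynomial.induction_on' with
      | monomial β c =>
        have h1 : (monomial β c * v).IsHomogeneous (β.degree + k) :=
          (isHomogeneous_monomial c rfl).mul (hV v hv)
        rw [homogeneousComponent_of_mem h1]
        split_ifs with h
        · apply Submodule.subset_span
          refine ⟨v, hv, monomial β c, isHomogeneous_monomial c (by omega), mul_comm _ _⟩
        · exact Submodule.zero_mem _
      | add a b ha hb =>
        rw [add_mul, _root_.map_add]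
        exact Submodule.add_mem _ ha hb
    · intro a
      rw [mul_zero, _root_.map_zero]; exact Submodule.zero_mem _
    · intro x y _ _ hx hy a
      rw [mul_add, _root_.map_add]; exact Submodule.add_mem _ (hx a) (hy a)
    · intro b x _ hx a
      rw [smul_eq_mul, ← mul_assoc]
      exact hx _
  have := key 1
  rwa [one_mul] at this

end comp

section Q

/-- products of a form of `V` and a form of weight `m` -/
def Q {R : Type} [CommRing R] {s q : ℕ} (V : Set (MvPolynomial (Fin s × Fin q) R)) (m : ℕ) :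
    Set (MvPolynomial (Fin s × Fin q) R) :=
  {g | ∃ v ∈ V, ∃ h ∈ W R s q m, g = v * h}

variable {R : Type} [CommRing R] {s q : ℕ} {V : Set (MvPolynomial (Fin s × Fin q) R)}

theorem Q_mul {a b : ℕ} {f g : MvPolynomial (Fin s × Fin q) R}
    (hf : f ∈ Submodule.span R (Q V a)) (hg : g ∈ W R s q b) :
    f * g ∈ Submodule.span R (Q V (a + b)) := by
  refine Submodule.span_induction (p := fun f _ => f * g ∈ Submodule.span R (Q V (a + b)))
    ?_ ?_ ?_ ?_ hf
  · rintro _ ⟨v, hv, h, hh, rfl⟩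
    apply Submodule.subset_span
    exact ⟨v, hv, h * g, W_mul hh hg, by ring⟩
  · rw [zero_mul]; exact Submodule.zero_mem _
  · intro x y _ _ hx hy
    rw [add_mul]; exact Submodule.add_mem _ hx hy
  · intro c x _ hx
    rw [smul_mul_assoc]; exact Submodule.smul_mem _ _ hx

theorem Q_mem {c m : ℕ} (hV : ∀ v ∈ V, v ∈ W R s q c) {f : MvPolynomial (Fin s × Fin q) R}
    (hf : f ∈ Submodule.span R (Q V m)) : f ∈ W R s q (m + c) := by
  refine Submodule.span_le.2 ?_ hf
  rintro _ ⟨v, hv, h, hh, rfl⟩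
  rw [add_comm]
  exact W_mul (hV v hv) hh

/-- generation over `ℂ` -/
theorem genC {c : ℕ} {V : Set (MvPolynomial (Fin s × Fin q) ℂ)} (hV : ∀ v ∈ V, v ∈ W ℂ s q c)
    (hz : ∀ ζ : Fin s × Fin q → ℂ, (∃ σ : Fin q → Fin s, eval ζ (mn ℂ σ) ≠ 0) →
      ∃ v ∈ V, eval ζ v ≠ 0) :
    ∃ m0 : ℕ, ∀ m, m0 ≤ m → ∀ f ∈ W ℂ s q (m + c), f ∈ Submodule.span ℂ (Q V m) := by
  classical
  have h1 : ∀ ι : Fin q → Fin s, mn ℂ ι ∈ (Ideal.span V).radical := by
    intro ι
    rw [← MvPolynomial.vanishingIdeal_zeroLocus_eq_radical (K := ℂ) (Ideal.span V),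
      mem_vanishingIdeal_iff]
    intro x hx
    rw [mem_zeroLocus_iff] at hx
    by_contra h0
    obtain ⟨p, hp, hpx⟩ := hz x ⟨ι, h0⟩
    exact hpx (hx p (Ideal.subset_span hp))
  choose e0 he0 using h1
  set e : ℕ := c + ∑ ι, e0 ι with he
  have hce : c ≤ e := Nat.le_add_right _ _
  have h2 : ∀ ι : Fin q → Fin s, mn ℂ ι ^ e ∈ Ideal.span V := by
    intro ι
    obtain ⟨d, hd⟩ := Nat.exists_eq_add_of_le (Finset.single_le_sum
      (f := e0) (fun _ _ => Nat.zero_le _) (Finset.mem_univ ι))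
    have : e = e0 ι + (c + d) := by omega
    rw [this, pow_add]
    exact (Ideal.span V).mul_mem_right _ (he0 ι)
  set E : ℕ := e + (q - 1) * e with hE
  have hcE : c ≤ E := hce.trans (Nat.le_add_right _ _)
  have h3 : ∀ ι : Fin q → Fin s, mn ℂ ι ^ E ∈ Submodule.span ℂ (Q V (E - c)) := by
    intro ι
    have h4 : mn ℂ ι ^ e ∈ Submodule.span ℂ {g | ∃ v ∈ V, ∃ h : MvPolynomial (Fin s × Fin q) ℂ,
        h.IsHomogeneous ((e - c) * q) ∧ g = v * h} := by
      have h5 := component_mem (fun v hv => W_hom (hV v hv)) ((e - c) * q) (h2 ι)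
      have h6 : (mn ℂ ι ^ e).IsHomogeneous ((e - c) * q + c * q) := by
        have h7 := (mn_hom (R := ℂ) ι).pow e
        have h8 : (e - c) * q + c * q = q * e := by
          rw [← add_mul, Nat.sub_add_cancel hce, mul_comm]
        rwa [h8]
      rwa [homogeneousComponent_of_mem h6, if_pos rfl] at h5
    have h5 : tau ℂ ι (mn ℂ ι ^ e) ∈
        Submodule.span ℂ (Q V ((q - 1) * c + (e - c) * q)) := by
      have h6 : tau ℂ ι (mn ℂ ι ^ e) ∈ (Submodule.span ℂ {g | ∃ v ∈ V,
          ∃ h : MvPolynomial (Fin s × Fin q) ℂ,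
          h.IsHomogeneous ((e - c) * q) ∧ g = v * h}).map (tau ℂ ι).toLinearMap := ⟨_, h4, rfl⟩
      rw [Submodule.map_span] at h6
      refine Submodule.span_mono ?_ h6
      rintro _ ⟨_, ⟨v, hv, h, hh, rfl⟩, rfl⟩
      refine ⟨v, hv, mn ℂ ι ^ ((q - 1) * c) * tau ℂ ι h, ?_, ?_⟩
      · have h7 := W_mul (W_pow (mn_mem (R := ℂ) ι) ((q - 1) * c)) (tau_hom ι hh)
        rwa [mul_one] at h7
      · change tau ℂ ι (v * h) = _
        rw [_root_.map_mul, tau_W ι (hV v hv)]
        ring
    have h6 : mn ℂ ι ^ e ∈ W ℂ s q e := by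
      have := W_pow (mn_mem (R := ℂ) ι) e
      rwa [mul_one] at this
    rw [tau_W ι h6, ← pow_add] at h5
    rcases Nat.eq_zero_or_pos q with hq | hq
    · subst hq
      have h7 : mn ℂ ι = 1 := by
        rw [mn]
        exact Matrix.det_isEmpty
      have h8 : (1 : MvPolynomial (Fin s × Fin 0) ℂ) ∈ W ℂ s 0 (E - c) := by
        have := W_pow (mn_mem (R := ℂ) ι) (E - c)
        rwa [h7, one_pow, mul_one] at this
      have h9 := Q_mul h5 h8
      rw [mul_one] at h9
      have h10 : (0 - 1) * c + (e - c) * 0 + (E - c) = E - c := by simp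
      rwa [h10] at h9
    · have h7 : (q - 1) * c + (e - c) * q = E - c := by
        obtain ⟨q', rfl⟩ : ∃ q', q = q' + 1 := ⟨q - 1, by omega⟩
        obtain ⟨e', he'⟩ := Nat.exists_eq_add_of_le hce
        rw [hE, he']
        have h8 : c + e' + (q' + 1 - 1) * (c + e') =
            c + ((q' + 1 - 1) * c + (c + e' - c) * (q' + 1)) := by
          rw [Nat.add_sub_cancel, Nat.add_sub_cancel_left]
          ring
        rw [h8]
        exact (Nat.add_sub_cancel_left _ _).symm
      rwa [h7] at h5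
  refine ⟨Fintype.card (Fin q → Fin s) * E + 1, fun m hm f hf => ?_⟩
  refine Submodule.span_le.2 ?_ hf
  rintro _ ⟨σ, rfl⟩
  show ∏ i, mn ℂ (σ i) ∈ Submodule.span ℂ (Q V m)
  obtain ⟨τ, hτ⟩ := Fintype.exists_lt_card_fiber_of_mul_lt_card (f := σ) (n := E) (by
    rw [Fintype.card_fin]; omega)
  obtain ⟨T, hT1, hT2⟩ := Finset.exists_subset_card_eq hτ.le
  rw [← Finset.prod_mul_prod_compl T]
  have h4 : ∏ i ∈ T, mn ℂ (σ i) = mn ℂ τ ^ E := by
    rw [← hT2, ← Finset.prod_const]
    refine Finset.prod_congr rfl fun i hi => ?_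
    rw [(Finset.mem_filter.1 (hT1 hi)).2]
  have h5 : Tᶜ.card = m + c - E := by
    rw [Finset.card_compl, Fintype.card_fin, hT2]
  have h6 := prod_mem_W (R := ℂ) Tᶜ σ
  rw [h5] at h6
  rw [h4]
  have h7 := Q_mul (h3 τ) h6
  have h8 : E - c + (m + c - E) = m := by
    have h9 : E ≤ m := by
      have h10 : E ≤ Fintype.card (Fin q → Fin s) * E := by
        have : 0 < Fintype.card (Fin q → Fin s) := Fintype.card_pos_iff.2 ⟨τ⟩
        exact Nat.le_mul_of_pos_left _ this
      omega
    omega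
  rwa [h8] at h7

end Q

section span

variable {K : Type} [Field K] {s q m : ℕ} {Γ : Finset ((Fin s × Fin q) →₀ ℕ)}
    {b : ((Fin s × Fin q) →₀ ℕ) → MvPolynomial (Fin s × Fin q) K}

/-- forms whose coordinate vectors span -/
theorem mem_span_of_det (hC : IsC K s q m Γ b) (f : Γ → MvPolynomial (Fin s × Fin q) K)
    (hf : ∀ γ, f γ ∈ W K s q m) (hdet : (cmat Γ f).det ≠ 0)
    {g : MvPolynomial (Fin s × Fin q) K} (hg : g ∈ W K s q m) :
    g ∈ Submodule.span K (Set.range f) := by
  let a : Γ → K := ((cmat Γ f)⁻¹).mulVec (fun β => coeff β.1 (rho K s q g))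
  have h1 : (cmat Γ f).mulVec a = fun β => coeff β.1 (rho K s q g) := by
    change (cmat Γ f).mulVec (((cmat Γ f)⁻¹).mulVec _) = _
    rw [Matrix.mulVec_mulVec, Matrix.mul_nonsing_inv _ (isUnit_iff_ne_zero.2 hdet),
      Matrix.one_mulVec]
  have h2 : g = ∑ γ, a γ • f γ := by
    have h3 : (∑ γ, a γ • f γ) ∈ W K s q m :=
      Submodule.sum_mem _ fun γ _ => Submodule.smul_mem _ _ (hf γ)
    rw [hC.exp g hg, hC.exp _ h3]
    refine Finset.sum_congr rfl fun β hβ => ?_
    congr 2
    have h4 := congrFun h1 ⟨β, hβ⟩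
    rw [← h4, map_sum, coeff_sum]
    refine Finset.sum_congr rfl fun γ _ => ?_
    rw [_root_.map_smul, coeff_smul, smul_eq_mul, mul_comm]
    rfl
  rw [h2]
  exact Submodule.sum_mem _ fun γ _ =>
    Submodule.smul_mem _ _ (Submodule.subset_span (Set.mem_range_self γ))

end span

section gen

variable {K : Type} [Field K] [Algebra ℂ K] [IsFF ℂ K] {s q : ℕ}

theorem isC_map {F : Type} [Field F] [CharZero F] {m : ℕ} {Γ : Finset ((Fin s × Fin q) →₀ ℕ)}
    {b : ((Fin s × Fin q) →₀ ℕ) → MvPolynomial (Fin s × Fin q) F}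
    (h1 : ∀ β ∈ Γ, b β ∈ W F s q m)
    (h2 : ∀ β ∈ Γ, ∀ β' ∈ Γ, coeff β' (rho F s q (b β)) = if β' = β then 1 else 0)
    (h3 : ∀ f ∈ W F s q m, f = ∑ β ∈ Γ, C (coeff β (rho F s q f)) * b β)
    {L : Type} [Field L] (φ : F →+* L) :
    IsC L s q m Γ (fun β => MvPolynomial.map φ (b β)) where
  mem := fun β hβ => W_map φ (h1 β hβ)
  coe := by
    intro β hβ β' hβ'
    rw [← map_rho, coeff_map, h2 β hβ β' hβ']
    split_ifs
    · exact map_one φ
    · exact map_zero φ
  exp := fun f hf => expand h3 φ hf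

/-- **Generation** over the function field. -/
theorem gen (hqs : q ≤ s) (P : Place ℂ K) (n : ℤ) (c : ℕ) (V : Set (MvPolynomial (Fin s × Fin q) K))
    (hV : ∀ v ∈ V, v ∈ W K s q c) (hc : ∀ v ∈ V, ∀ α, Ge P (-n) (coeff α v))
    (hz : ∀ ζ : Matrix (Fin s) (Fin q) ℂ, (∃ σ : Fin q → Fin s, (ζ.submatrix σ id).det ≠ 0) →
      ∃ v ∈ V, ¬ Ge P (1 - n) (eval (fun z => algebraMap ℂ K (ζ z.1 z.2)) v)) :
    ∃ m0 : ℕ, ∀ m, m0 ≤ m → ∀ f ∈ W K s q (m + c), f ∈ Submodule.span K (Q V m) := by
  classical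
  obtain ⟨t, -, ht⟩ := P.surj
  have ht0 : t ≠ 0 := by rintro rfl; rw [P.ord_zero] at ht; omega
  have hic : (io P).comp (cst P) = algebraMap ℂ K := RingHom.ext fun x => rfl
  have htc : (theta P).comp (cst P) = RingHom.id ℂ := RingHom.ext fun x => theta_cst P x
  have hmc : ∀ g : MvPolynomial (Fin s × Fin q) ℂ,
      MvPolynomial.map (io P) (MvPolynomial.map (cst P) g) = MvPolynomial.map (algebraMap ℂ K) g := by
    intro g
    rw [MvPolynomial.map_map, hic]
  have hmt : ∀ g : MvPolynomial (Fin s × Fin q) ℂ,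
      MvPolynomial.map (theta P) (MvPolynomial.map (cst P) g) = g := by
    intro g
    rw [MvPolynomial.map_map, htc, MvPolynomial.map_id]
  let Vb : Set (MvPolynomial (Fin s × Fin q) ℂ) := {p | ∃ v ∈ V, ∃ F : MvPolynomial (Fin s × Fin q) P.O,
    MvPolynomial.map (io P) F = C (t ^ n) * v ∧ p = MvPolynomial.map (theta P) F}
  have hVb : ∀ p ∈ Vb, p ∈ W ℂ s q c := by
    rintro _ ⟨v, hv, F, hF, rfl⟩
    obtain ⟨Γ, b, -, -, hb1, -, hb3⟩ := exists_coord (F := ℂ) (s := s) (q := q) hqs c
    have h1 : C (t ^ n) * v ∈ W K s q c := by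
      rw [← MvPolynomial.smul_eq_C_mul]
      exact Submodule.smul_mem _ _ (hV v hv)
    have h2 : F = ∑ β ∈ Γ, C (coeff β (rho P.O s q F)) * MvPolynomial.map (cst P) (b β) := by
      apply MvPolynomial.map_injective _ (io_injective P)
      rw [map_sum]
      simp only [_root_.map_mul, map_C, hmc]
      have h3 := expand hb3 (algebraMap ℂ K) h1
      rw [← hF] at h3
      rw [h3]
      refine Finset.sum_congr rfl fun β _ => ?_
      congr 2
      rw [← map_rho, coeff_map]
    rw [h2, map_sum]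
    apply Submodule.sum_mem
    intro β hβ
    rw [_root_.map_mul, map_C, hmt, ← MvPolynomial.smul_eq_C_mul]
    exact Submodule.smul_mem _ _ (hb1 β hβ)
  have hzb : ∀ ζ : Fin s × Fin q → ℂ, (∃ σ : Fin q → Fin s, eval ζ (mn ℂ σ) ≠ 0) →
      ∃ p ∈ Vb, eval ζ p ≠ 0 := by
    rintro ζ ⟨σ, hσ⟩
    rw [eval_mn] at hσ
    obtain ⟨v, hv, hv1⟩ := hz (Matrix.of fun i a => ζ (i, a)) ⟨σ, hσ⟩
    have h1 : ∀ α, Ge P 0 (coeff α (C (t ^ n) * v)) := by
      intro α
      rw [coeff_C_mul]
      have h2 : Ge P n (t ^ n) := Or.inr (by rw [P.ord_zpow, ht]; simp)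
      have := ge_mul h2 (hc v hv α)
      rwa [add_neg_cancel] at this
    obtain ⟨F, hF⟩ := exists_lift P h1
    refine ⟨MvPolynomial.map (theta P) F, ⟨v, hv, F, hF, rfl⟩, ?_⟩
    intro h0
    apply hv1
    have h3 := theta_eval P F (fun i => cst P (ζ i))
    simp only [theta_cst] at h3
    rw [h0, theta_eq_zero, io_eval, hF, _root_.map_mul, eval_C] at h3
    simp only [io_cst] at h3
    have h4 : Ge P (-n) (t ^ (-n)) := Or.inr (by rw [P.ord_zpow, ht]; simp)
    have h5 := ge_mul h4 h3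
    rw [← mul_assoc, ← zpow_add₀ ht0, neg_add_cancel, zpow_zero, one_mul] at h5
    refine ge_mono ?_ h5
    omega
  obtain ⟨m0, hm0⟩ := genC hVb hzb
  refine ⟨m0, fun m hm f hf => ?_⟩
  obtain ⟨Γ, b, -, -, hb1, hb2, hb3⟩ := exists_coord (F := ℂ) (s := s) (q := q) hqs (m + c)
  have hC := isC_map hb1 hb2 hb3 (algebraMap ℂ K)
  have hlift : ∀ g ∈ Submodule.span ℂ (Q Vb m), ∃ G : MvPolynomial (Fin s × Fin q) P.O,
      MvPolynomial.map (theta P) G = g ∧
      MvPolynomial.map (io P) G ∈ Submodule.span K (Q V m) := by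
    intro g hg
    refine Submodule.span_induction (p := fun g _ => ∃ G : MvPolynomial (Fin s × Fin q) P.O,
      MvPolynomial.map (theta P) G = g ∧
      MvPolynomial.map (io P) G ∈ Submodule.span K (Q V m)) ?_ ?_ ?_ ?_ hg
    · rintro _ ⟨_, ⟨v, hv, F, hF, rfl⟩, h, hh, rfl⟩
      refine ⟨F * MvPolynomial.map (cst P) h, ?_, ?_⟩
      · rw [_root_.map_mul, hmt]
      · rw [_root_.map_mul, hF, hmc]
        apply Submodule.subset_span
        refine ⟨v, hv, C (t ^ n) * MvPolynomial.map (algebraMap ℂ K) h, ?_, by ring⟩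
        rw [← MvPolynomial.smul_eq_C_mul]
        exact Submodule.smul_mem _ _ (W_map _ hh)
    · exact ⟨0, by simp, by rw [_root_.map_zero]; exact Submodule.zero_mem _⟩
    · rintro x y _ _ ⟨G1, h1, h2⟩ ⟨G2, h3, h4⟩
      exact ⟨G1 + G2, by rw [_root_.map_add, h1, h3], by
        rw [_root_.map_add]; exact Submodule.add_mem _ h2 h4⟩
    · rintro a x _ ⟨G1, h1, h2⟩
      refine ⟨C (cst P a) * G1, ?_, ?_⟩
      · rw [_root_.map_mul, map_C, theta_cst, h1, MvPolynomial.smul_eq_C_mul]
      · rw [_root_.map_mul, map_C, ← MvPolynomial.smul_eq_C_mul]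
        exact Submodule.smul_mem _ _ h2
  have hlift2 : ∀ γ : Γ, ∃ G : MvPolynomial (Fin s × Fin q) P.O,
      MvPolynomial.map (theta P) G = b γ.1 ∧
      MvPolynomial.map (io P) G ∈ Submodule.span K (Q V m) :=
    fun γ => hlift _ (hm0 m hm _ (hb1 γ.1 γ.2))
  choose G hG1 hG2 using hlift2
  have hdet : (cmat Γ fun γ => MvPolynomial.map (io P) (G γ)).det ≠ 0 := by
    set N : Matrix Γ Γ P.O := Matrix.of fun β γ => coeff β.1 (rho P.O s q (G γ)) with hN
    have h1 : (cmat Γ fun γ => MvPolynomial.map (io P) (G γ)) = N.map (io P) := by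
      ext β γ
      change coeff β.1 (rho K s q (MvPolynomial.map (io P) (G γ))) =
        io P (coeff β.1 (rho P.O s q (G γ)))
      rw [← map_rho, coeff_map]
    have h2 : N.map (theta P) = 1 := by
      ext β γ
      change theta P (coeff β.1 (rho P.O s q (G γ))) = _
      rw [← coeff_map, map_rho, hG1, hb2 _ γ.2 _ β.2, Matrix.one_apply]
      by_cases h : β = γ
      · rw [h]; simp
      · rw [if_neg h, if_neg fun h' => h (Subtype.ext h')]
    rw [h1]
    intro h0
    have h3 : io P N.det = 0 := by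
      rw [RingHom.map_det]
      exact h0
    have h4 : N.det = 0 := io_injective P (by rw [h3, _root_.map_zero])
    have h5 : theta P N.det = 1 := by
      rw [RingHom.map_det]
      change (N.map (theta P)).det = 1
      rw [h2, Matrix.det_one]
    rw [h4, _root_.map_zero] at h5
    exact zero_ne_one h5
  have h6 := mem_span_of_det hC _ (fun γ => Q_mem hV (hG2 γ)) hdet hf
  refine Submodule.span_le.2 ?_ h6
  rintro _ ⟨γ, rfl⟩
  exact hG2 γ

end gen

end Pool.Agent.Helper42.GR
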