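import Pool.Agent.Helper42.GR.Gen

/-!
Project GR (helper9), package A1 (helper42): the determinant bound, counting, and the theorem.
-/

set_option autoImplicit false
set_option linter.unusedSectionVars false

namespace Pool.Agent.Helper42.GR

open FF Module MvPolynomial Matrix Pool.Agent.Helper9.GR Pool.Agent.Helper9.FJ
open Pool.Agent.Helper90.FJ (theta io cst io_apply io_injective io_cst theta_cst theta_surjective
  theta_eq_zero exists_lift theta_eval io_eval ge_sum ge_one ge_prod ge_max ge_det ge_mul ge_add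
  ge_neg ge_zero ge_mono ddeg_single_one)

section CG

variable {K : Type} [Field K] [Algebra ℂ K] {I : Type} [Fintype I] [DecidableEq I]
  {P : Place ℂ K}

/-- weighted bound for the orders of the coefficients -/
def CG (P : Place ℂ K) (w c : ℤ) (f : MvPolynomial I K) : Prop :=
  ∀ β, Ge P (c - w * β.degree) (coeff β f)

theorem CG_mul {w c c' : ℤ} {f f' : MvPolynomial I K} (h : CG P w c f) (h' : CG P w c' f') :
    CG P w (c + c') (f * f') := by
  intro β
  rw [coeff_mul]
  apply ge_sum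
  rintro ⟨β1, β2⟩ hβ
  rw [Finset.HasAntidiagonal.mem_antidiagonal] at hβ
  have h1 := ge_mul (h β1) (h' β2)
  have h2 : β.degree = β1.degree + β2.degree := by rw [← hβ]; exact _root_.map_add _ _ _
  rw [h2]
  refine ge_mono (le_of_eq ?_) h1
  push_cast
  ring

theorem CG_sum {w c : ℤ} {ι : Type*} (s : Finset ι) (f : ι → MvPolynomial I K)
    (h : ∀ i ∈ s, CG P w c (f i)) : CG P w c (∑ i ∈ s, f i) := by
  intro α
  rw [coeff_sum]
  exact ge_sum _ _ fun i hi => h i hi α

theorem CG_neg {w c : ℤ} {f : MvPolynomial I K} (h : CG P w c f) : CG P w c (-f) := by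
  intro α
  rw [coeff_neg]
  exact ge_neg (h α)

theorem CG_zero {w c : ℤ} : CG P w c (0 : MvPolynomial I K) := by
  intro α
  rw [coeff_zero]
  exact ge_zero

theorem CG_C {c : ℤ} {x : K} (h : Ge P c x) : CG P 0 c (C x : MvPolynomial I K) := by
  intro α
  rw [zero_mul, sub_zero, coeff_C]
  split_ifs
  · exact h
  · exact ge_zero

theorem CG_one : CG P 0 0 (1 : MvPolynomial I K) := by
  have := CG_C (I := I) (P := P) ge_one
  rwa [C_1] at this

theorem CG_X (z : I) : CG P 0 0 (X z : MvPolynomial I K) := by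
  intro α
  rw [zero_mul, sub_zero, coeff_X]
  split_ifs
  · exact ge_one
  · exact ge_zero

theorem CG_prod {ι : Type*} (s : Finset ι) (n : ι → ℤ) (f : ι → MvPolynomial I K)
    (h : ∀ i ∈ s, CG P 0 (n i) (f i)) : CG P 0 (∑ i ∈ s, n i) (∏ i ∈ s, f i) := by
  classical
  induction s using Finset.induction_on with
  | empty => rw [Finset.sum_empty, Finset.prod_empty]; exact CG_one
  | insert a s ha ih =>
    rw [Finset.sum_insert ha, Finset.prod_insert ha]
    exact CG_mul (h a (Finset.mem_insert_self _ _))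
      (ih fun i hi => h i (Finset.mem_insert_of_mem hi))

theorem CG_pow {c : ℤ} {f : MvPolynomial I K} (h : CG P 0 c f) (n : ℕ) :
    CG P 0 (n * c) (f ^ n) := by
  induction n with
  | zero => rw [pow_zero, Nat.cast_zero, zero_mul]; exact CG_one
  | succ n ih =>
    rw [pow_succ]
    have := CG_mul ih h
    have e : ((n + 1 : ℕ) : ℤ) * c = n * c + c := by push_cast; ring
    rwa [e]

theorem CG_det {n : ℕ} (M : Matrix (Fin n) (Fin n) (MvPolynomial I K)) (w : Fin n → ℤ)
    (h : ∀ i j, CG P 0 (w i) (M i j)) : CG P 0 (∑ i, w i) M.det := by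
  rw [Matrix.det_apply]
  apply CG_sum
  intro σ _
  have h1 : CG P 0 (∑ i, w i) (∏ i, M (σ i) i) := by
    rw [← Equiv.sum_comp σ w]
    exact CG_prod _ _ _ fun i _ => h (σ i) i
  rcases Int.units_eq_one_or (Equiv.Perm.sign σ) with h2 | h2
  · rw [h2, one_smul]; exact h1
  · rw [h2, Units.neg_smul, one_smul]; exact CG_neg h1

theorem CG_weight {c : ℤ} {f : MvPolynomial I K} (h : CG P 0 c f) : CG P 1 c f := by
  intro β
  refine ge_mono ?_ (h β)
  rw [zero_mul, sub_zero, one_mul]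
  have : (0 : ℤ) ≤ β.degree := Int.natCast_nonneg _
  omega

end CG

section rho

variable {K : Type} [Field K] [Algebra ℂ K] {P : Place ℂ K} {s q : ℕ}

theorem CG_rho_X (z : Fin s × Fin q) : CG P 0 0 (rho K s q (X z)) := by
  rw [rho_X]
  split_ifs
  · exact CG_one
  · exact CG_zero
  · exact CG_X z

theorem CG_rho {c : ℤ} {f : MvPolynomial (Fin s × Fin q) K} (h : ∀ α, Ge P c (coeff α f)) :
    CG P 0 c (rho K s q f) := by
  rw [f.as_sum, map_sum]
  apply CG_sum
  intro α _
  rw [MvPolynomial.monomial_eq, _root_.map_mul, rho_C, Finsupp.prod_fintype _ _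
    (fun i => pow_zero _), _root_.map_prod]
  have h1 : CG P 0 (∑ z, (α z : ℤ) * 0) (∏ z, rho K s q (X z ^ α z)) := by
    apply CG_prod
    intro z _
    rw [_root_.map_pow]
    exact CG_pow (CG_rho_X z) _
  have h2 := CG_mul (CG_C (h α)) h1
  simpa using h2

theorem coeff_zero_rho (f : MvPolynomial (Fin s × Fin q) K) :
    coeff 0 (rho K s q f) = eval (base K s q) f := by
  have h1 := eval_rho (0 : Fin s × Fin q → K) f
  have h2 : eval (0 : Fin s × Fin q → K) (rho K s q f) = coeff 0 (rho K s q f) := by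
    rw [MvPolynomial.eval_zero]
    rfl
  rw [← h2, h1]
  congr 2
  funext z
  rw [base]
  split_ifs with h3 h4 h5
  · rfl
  · rfl
  · exact absurd z.2.2 (by omega)
  · rfl

theorem CG_rho_sb_mn {h : Matrix (Fin s) (Fin s) K} {c : ℤ} (hh : ∀ i j, Ge P c (h i j))
    (σ : Fin q → Fin s) : CG P 0 (q * c) (rho K s q (sb h (mn K σ))) := by
  rw [sb_mn, map_sum]
  apply CG_sum
  intro τ _
  rw [_root_.map_smul, MvPolynomial.smul_eq_C_mul]
  have h1 : Ge P (∑ _a : Fin q, c) (∏ a, h (σ a) (τ a)) := ge_prod _ _ _ fun a _ => hh _ _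
  rw [Finset.sum_const, Finset.card_univ, Fintype.card_fin, nsmul_eq_mul] at h1
  have h2 : CG P 0 (∑ _a : Fin q, 0) (rho K s q (mn K τ)) := by
    have h1 := hom_mn (rho K s q).toRingHom τ
    change rho K s q (mn K τ) = _ at h1
    rw [h1]
    exact CG_det _ _ fun i j => CG_rho_X _
  rw [Finset.sum_const_zero] at h2
  have h3 := CG_mul (CG_C h1) h2
  rwa [add_zero] at h3

end rho

section PR

variable {K : Type} [Field K] [Algebra ℂ K] {s q : ℕ}

/-- products of `j` elements of `V` and `m1` minors -/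
def PR (V : Set (MvPolynomial (Fin s × Fin q) K)) (m1 : ℕ) :
    ℕ → Set (MvPolynomial (Fin s × Fin q) K)
  | 0 => {f | ∃ σ : Fin m1 → Fin q → Fin s, f = ∏ i, mn K (σ i)}
  | j + 1 => {g | ∃ v ∈ V, ∃ f ∈ PR V m1 j, g = v * f}

variable {V : Set (MvPolynomial (Fin s × Fin q) K)} {c m1 : ℕ}

theorem PR_mem (hV : ∀ v ∈ V, v ∈ W K s q c) (j : ℕ) :
    ∀ f ∈ PR V m1 j, f ∈ W K s q (m1 + j * c) := by
  induction j with
  | zero =>
    rintro f ⟨σ, rfl⟩
    rw [zero_mul, add_zero]
    exact Submodule.subset_span ⟨σ, rfl⟩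
  | succ j ih =>
    rintro f ⟨v, hv, f, hf, rfl⟩
    have e : m1 + (j + 1) * c = c + (m1 + j * c) := by ring
    rw [e]
    exact W_mul (hV v hv) (ih f hf)

theorem PR_span {m0 : ℕ} (h01 : m0 ≤ m1)
    (hgen : ∀ m, m0 ≤ m → ∀ f ∈ W K s q (m + c), f ∈ Submodule.span K (Q V m)) (j : ℕ) :
    ∀ f ∈ W K s q (m1 + j * c), f ∈ Submodule.span K (PR V m1 j) := by
  induction j with
  | zero =>
    intro f hf
    rw [zero_mul, add_zero] at hf
    refine Submodule.span_mono ?_ hf
    rintro _ ⟨σ, rfl⟩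
    exact ⟨σ, rfl⟩
  | succ j ih =>
    intro f hf
    have e : m1 + (j + 1) * c = (m1 + j * c) + c := by ring
    rw [e] at hf
    have h1 := hgen _ (h01.trans (Nat.le_add_right _ _)) f hf
    refine Submodule.span_le.2 ?_ h1
    rintro _ ⟨v, hv, h, hh, rfl⟩
    have h2 := ih h hh
    have h3 : v * h ∈ (Submodule.span K (PR V m1 j)).map (LinearMap.mulLeft K v) :=
      ⟨h, h2, rfl⟩
    rw [Submodule.map_span] at h3
    refine Submodule.span_mono ?_ h3
    rintro _ ⟨f, hf, rfl⟩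
    exact ⟨v, hv, f, hf, rfl⟩

theorem PR_CG {P : Place ℂ K} {h : Matrix (Fin s) (Fin s) K} {w cv cb : ℤ}
    (hv : ∀ v ∈ V, CG P w cv (rho K s q (sb h v)))
    (hb : ∀ σ : Fin m1 → Fin q → Fin s, CG P w cb (rho K s q (sb h (∏ i, mn K (σ i))))) (j : ℕ) :
    ∀ f ∈ PR V m1 j, CG P w (j * cv + cb) (rho K s q (sb h f)) := by
  induction j with
  | zero =>
    rintro f ⟨σ, rfl⟩
    rw [Nat.cast_zero, zero_mul, zero_add]
    exact hb σ
  | succ j ih =>
    rintro f ⟨v, hv', f, hf, rfl⟩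
    rw [_root_.map_mul, _root_.map_mul]
    have := CG_mul (hv v hv') (ih f hf)
    have e : ((j + 1 : ℕ) : ℤ) * cv + cb = cv + (j * cv + cb) := by push_cast; ring
    rwa [e]

theorem exists_family {m : ℕ} {Γ : Finset ((Fin s × Fin q) →₀ ℕ)}
    {b : ((Fin s × Fin q) →₀ ℕ) → MvPolynomial (Fin s × Fin q) K} (hC : IsC K s q m Γ b)
    (S : Set (MvPolynomial (Fin s × Fin q) K))
    (hspan : ∀ f ∈ W K s q m, f ∈ Submodule.span K S) :
    ∃ f : Γ → MvPolynomial (Fin s × Fin q) K, (∀ γ, f γ ∈ S) ∧ (cmat Γ f).det ≠ 0 := by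
  classical
  let cv : MvPolynomial (Fin s × Fin q) K →ₗ[K] (Γ → K) :=
    LinearMap.pi fun α => (MvPolynomial.lcoeff K α.1).comp (rho K s q).toLinearMap
  have hcv : ∀ f α, cv f α = coeff α.1 (rho K s q f) := fun f α => rfl
  have hs : (⊤ : Submodule K (Γ → K)) ≤ Submodule.span K (cv '' S) := by
    rw [← Submodule.map_span]
    rintro x -
    refine ⟨∑ γ : Γ, x γ • b γ.1, ?_, ?_⟩
    · apply Submodule.sum_mem
      intro γ _
      apply Submodule.smul_mem
      exact hspan _ (hC.mem _ γ.2)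
    · ext α
      rw [hcv, map_sum, coeff_sum, Finset.sum_eq_single α]
      · rw [_root_.map_smul, coeff_smul, hC.coe _ α.2 _ α.2, if_pos rfl, smul_eq_mul, mul_one]
      · intro β _ hβ
        rw [_root_.map_smul, coeff_smul, hC.coe _ β.2 _ α.2, if_neg, smul_zero]
        intro h
        exact hβ (Subtype.ext h.symm)
      · intro h; exact absurd (Finset.mem_univ _) h
  let bs := Module.Basis.ofSpan hs
  let e := (Pi.basisFun K Γ).indexEquiv bs
  have h1 : ∀ γ, bs (e γ) ∈ cv '' S := fun γ =>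
    Module.Basis.ofSpan_subset hs (Set.mem_range_self _)
  choose f hf1 hf2 using h1
  refine ⟨f, hf1, ?_⟩
  have h2 : LinearIndependent K (cmat Γ f).col := by
    have h3 : (cmat Γ f).col = fun γ => bs (e γ) := by
      ext γ α
      rw [← hf2]
      rfl
    rw [h3]
    exact bs.linearIndependent.comp e e.injective
  have h4 := (Matrix.linearIndependent_cols_iff_isUnit).1 h2
  exact ((Matrix.isUnit_iff_isUnit_det _).1 h4).ne_zero

end PR

section bound

variable {K : Type} [Field K] [Algebra ℂ K] [IsFF ℂ K] {s q : ℕ}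

/-- **The determinant bound.** -/
theorem bound {c m1 m0 j : ℕ} {V : Set (MvPolynomial (Fin s × Fin q) K)}
    (hV : ∀ v ∈ V, v ∈ W K s q c) (h01 : m0 ≤ m1)
    (hgen : ∀ m, m0 ≤ m → ∀ f ∈ W K s q (m + c), f ∈ Submodule.span K (Q V m))
    (g : Place ℂ K → Matrix (Fin s) (Fin s) K) (hg : ∀ P, (g P).det ≠ 0)
    (d N e : Place ℂ K →₀ ℤ)
    (hd : ∀ P, P.ord (g P).det = -d P) (he : ∀ P i j, Ge P (-e P) ((g P)⁻¹ i j))
    (hb : ∀ P, ∀ v ∈ V, ∀ α, Ge P (-N P) (coeff α (sb (g P)⁻¹ v)))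
    (P0 : Place ℂ K) (hb0 : ∀ v ∈ V, Ge P0 (1 - N P0) (eval (base K s q) (sb (g P0)⁻¹ v)))
    (hs : 0 < s) {Γ : Finset ((Fin s × Fin q) →₀ ℕ)}
    {b : ((Fin s × Fin q) →₀ ℕ) → MvPolynomial (Fin s × Fin q) K}
    (hC : IsC K s q (m1 + j * c) Γ b) :
    (s : ℤ) * ∑ β : Γ, max 0 ((j : ℤ) - β.1.degree) ≤
      Γ.card * (s * (j * ddeg N + m1 * q * ddeg e) + (m1 + j * c : ℕ) * q * ddeg d) := by
  classical
  have : CharZero K := charZero_of_injective_algebraMap (algebraMap ℂ K).injective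
  set m := m1 + j * c with hm
  obtain ⟨f, hf1, hf2⟩ := exists_family hC (PR V m1 j) (PR_span h01 hgen j)
  have hfh : ∀ γ, f γ ∈ W K s q m := fun γ => PR_mem hV j _ (hf1 γ)
  set D := (cmat Γ f).det with hD
  have hdet : ∀ P, (g P)⁻¹.det ≠ 0 := by
    intro P
    rw [Matrix.det_nonsing_inv, Ring.inverse_eq_inv]
    exact inv_ne_zero (hg P)
  have hT : ∀ P : Place ℂ K, (MM Γ b (g P)⁻¹).det ≠ 0 ∧
      (s : ℤ) * P.ord (MM Γ b (g P)⁻¹).det = (m * q * Γ.card : ℕ) * d P := by
    intro P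
    have h1 := det_MM hC (g P)⁻¹ (hdet P)
    have h2 : (MM Γ b (g P)⁻¹).det ≠ 0 := by
      intro h0
      have h3 := pow_ne_zero (m * q * Γ.card) (hdet P)
      rw [← h1, h0] at h3
      exact h3 (zero_pow hs.ne')
    refine ⟨h2, ?_⟩
    have h5 := congrArg P.ord h1
    rw [P.ord_pow, P.ord_pow, Matrix.det_nonsing_inv, Ring.inverse_eq_inv, P.ord_inv, hd P,
      neg_neg] at h5
    exact h5
  have hDP : ∀ P : Place ℂ K, (cmat Γ fun γ => sb (g P)⁻¹ (f γ)).det =
      (MM Γ b (g P)⁻¹).det * D := by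
    intro P
    rw [← MM_mul_cmat hC (g P)⁻¹ f hfh, Matrix.det_mul]
  have hord : ∀ P : Place ℂ K, ∀ w : Γ → ℤ,
      (∀ α γ : Γ, Ge P (w α) (coeff α.1 (rho K s q (sb (g P)⁻¹ (f γ))))) →
      (s : ℤ) * ∑ α, w α ≤
        (m * q * Γ.card : ℕ) * d P + s * P.ord D := by
    intro P w hw
    have h1 := ge_det w (cmat Γ fun γ => sb (g P)⁻¹ (f γ)) hw
    rw [hDP P] at h1
    have h2 := h1.resolve_left (mul_ne_zero (hT P).1 hf2)
    rw [P.ord_mul (hT P).1 hf2] at h2
    rw [← (hT P).2, ← mul_add]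
    exact mul_le_mul_of_nonneg_left h2 (by positivity)
  -- the plain bounds
  have hbeta : ∀ (P : Place ℂ K) (σ : Fin m1 → Fin q → Fin s),
      CG P 0 (m1 * (q * (-e P))) (rho K s q (sb (g P)⁻¹ (∏ i, mn K (σ i)))) := by
    intro P σ
    rw [_root_.map_prod, _root_.map_prod]
    have h1 : CG P 0 (∑ _i : Fin m1, (q : ℤ) * (-e P))
        (∏ i, rho K s q (sb (g P)⁻¹ (mn K (σ i)))) :=
      CG_prod _ _ _ fun i _ => CG_rho_sb_mn (he P) _
    rwa [Finset.sum_const, Finset.card_univ, Fintype.card_fin, nsmul_eq_mul] at h1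
  have hplain : ∀ P : Place ℂ K, ∀ γ,
      CG P 0 (j * (-N P) + m1 * (q * (-e P))) (rho K s q (sb (g P)⁻¹ (f γ))) := by
    intro P γ
    exact PR_CG (fun v hv => CG_rho (hb P v hv)) (hbeta P) j _ (hf1 γ)
  have hweight : ∀ γ, CG P0 1 (j * (1 - N P0) + m1 * (q * (-e P0)))
      (rho K s q (sb (g P0)⁻¹ (f γ))) := by
    intro γ
    refine PR_CG ?_ (fun σ => CG_weight (hbeta P0 σ)) j _ (hf1 γ)
    intro v hv β
    rw [one_mul]
    by_cases hβ : β = 0
    · subst hβ
      rw [coeff_zero_rho]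
      refine ge_mono ?_ (hb0 v hv)
      simp
    · have h1 := CG_rho (hb P0 v hv) β
      rw [zero_mul, sub_zero] at h1
      refine ge_mono ?_ h1
      have h2 : 1 ≤ β.degree := by
        rw [Nat.one_le_iff_ne_zero]
        intro h0
        exact hβ ((Finsupp.degree_eq_zero_iff _).1 h0)
      omega
  -- the divisor
  set n : ℤ := (Γ.card : ℤ) with hn
  set ρ : ℤ := (s : ℤ) with hρ
  set G : ℤ := ∑ β : Γ, max 0 ((j : ℤ) - β.1.degree) with hG
  have hplain' : ∀ P : Place ℂ K,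
      0 ≤ n * (ρ * (j * N P + m1 * q * e P) + m * q * d P) + ρ * P.ord D := by
    intro P
    have h1 := hord P (fun _ => j * (-N P) + m1 * (q * (-e P))) (by
      intro α γ
      have := hplain P γ α.1
      rwa [zero_mul, sub_zero] at this)
    rw [Finset.sum_const, Finset.card_univ, Fintype.card_coe, nsmul_eq_mul, ← hn] at h1
    push_cast at h1
    rw [← hn] at h1
    linarith
  have hweight' : 0 ≤ n * (ρ * (j * N P0 + m1 * q * e P0) + m * q * d P0) + ρ * P0.ord D -
      ρ * G := by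
    have h1 := hord P0 (fun α => (j * (-N P0) + m1 * (q * (-e P0))) +
        max 0 ((j : ℤ) - α.1.degree)) (by
      intro α γ
      have h2 := hplain P0 γ α.1
      rw [zero_mul, sub_zero] at h2
      have h3 := hweight γ α.1
      rw [one_mul] at h3
      refine ge_mono (le_of_eq ?_) (ge_max h2 h3)
      rw [← max_add_add_left, add_zero]
      congr 1
      ring)
    rw [Finset.sum_add_distrib, Finset.sum_const, Finset.card_univ, Fintype.card_coe,
      nsmul_eq_mul, ← hn, ← hG] at h1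
    push_cast at h1
    rw [← hn] at h1
    linarith
  have hB : (0 : Place ℂ K →₀ ℤ) ≤ (n * ρ * j) • N + (n * ρ * (m1 * q)) • e + (n * (m * q)) • d +
      ρ • divisor ℂ D - Finsupp.single P0 (ρ * G) := by
    intro P
    rw [Finsupp.sub_apply, Finsupp.add_apply, Finsupp.add_apply, Finsupp.add_apply,
      Finsupp.smul_apply, Finsupp.smul_apply, Finsupp.smul_apply, Finsupp.smul_apply,
      divisor_apply, Finsupp.zero_apply]
    simp only [smul_eq_mul]
    by_cases hP : P = P0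
    · subst hP
      rw [Finsupp.single_eq_same]
      linarith
    · rw [Finsupp.single_eq_of_ne hP]
      have := hplain' P
      linarith
  have hz : ∀ (z : ℤ) (D : Place ℂ K →₀ ℤ), ddeg (z • D) = z * ddeg D := by
    intro z D
    have h1 : ∀ x : Place ℂ K →₀ ℤ, ddeg x =
        (AddMonoidHom.mk' (ddeg (k := ℂ) (K := K)) ddeg_add) x := fun x => rfl
    rw [h1, h1, _root_.map_zsmul, smul_eq_mul]
  have h1 := ddeg_nonneg hB
  rw [ddeg_sub, ddeg_add, ddeg_add, ddeg_add, hz, hz, hz, hz, ddeg_divisor, ddeg_single_one] at h1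
  linarith

end bound

section count

/-- rounding -/
noncomputable def rdn {I : Type} [Fintype I] (b : ℕ) (β : I →₀ ℕ) : I →₀ ℕ :=
  Finsupp.equivFunOnFinite.symm fun i => β i / b

theorem card_D_le {s q n b T : ℕ} (hb : 0 < b) (hn : n ≤ b * T) :
    (D s q n).card ≤ (D s q T).card * b ^ Fintype.card (Fin s × Fin q) := by
  classical
  let Φ : ((Fin s × Fin q) →₀ ℕ) → ((Fin s × Fin q) →₀ ℕ) × (Fin s × Fin q → Fin b) := fun β =>
    (rdn b β, fun i => ⟨β i % b, Nat.mod_lt _ hb⟩)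
  have h1 : (D s q T ×ˢ (Finset.univ : Finset (Fin s × Fin q → Fin b))).card =
      (D s q T).card * b ^ Fintype.card (Fin s × Fin q) := by
    rw [Finset.card_product, Finset.card_univ, Fintype.card_fun, Fintype.card_fin]
  rw [← h1]
  apply Finset.card_le_card_of_injOn Φ
  · intro β hβ
    rw [Finset.mem_coe, mem_D] at hβ
    rw [Finset.mem_coe, Finset.mem_product]
    refine ⟨?_, Finset.mem_univ _⟩
    rw [mem_D]
    constructor
    · have h2 : b * (rdn b β).degree ≤ β.degree := by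
        rw [Finsupp.degree_eq_sum, Finsupp.degree_eq_sum, Finset.mul_sum]
        exact Finset.sum_le_sum fun x _ => Nat.mul_div_le _ _
      exact Nat.le_of_mul_le_mul_left (h2.trans (hβ.1.trans hn)) hb
    · intro z hz
      change β z / b = 0
      rw [hβ.2 z hz, Nat.zero_div]
  · intro γ _ γ' _ h
    have h2 : rdn b γ = rdn b γ' := congrArg Prod.fst h
    have h3 : (fun i => (⟨γ i % b, Nat.mod_lt _ hb⟩ : Fin b)) =
        fun i => ⟨γ' i % b, Nat.mod_lt _ hb⟩ := congrArg Prod.snd h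
    ext i
    have h5 : γ i / b = γ' i / b := DFunLike.congr_fun h2 i
    have h6 := congrArg Fin.val (congrFun h3 i)
    change γ i % b = γ' i % b at h6
    rw [← Nat.div_add_mod (γ i) b, ← Nat.div_add_mod (γ' i) b, h5, h6]

/-- **Counting**: the gain is larger than any multiple of the rank. -/
theorem exists_gain (s q : ℕ) {c : ℕ} (hc : 0 < c) (m1 : ℕ) (C : ℤ) : ∃ j : ℕ,
    ∀ Γ : Finset ((Fin s × Fin q) →₀ ℕ), D s q (m1 + j * c) ⊆ Γ →
      Γ ⊆ D s q ((m1 + j * c) * q) →
      Γ.card * C < ∑ β : Γ, max 0 ((j : ℤ) - β.1.degree) := by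
  classical
  let b := m1 * q + 2 * c * q + 1
  have hb : 0 < b := Nat.succ_pos _
  let B := b ^ Fintype.card (Fin s × Fin q)
  have hB : 0 < B := pow_pos hb _
  let T := C.toNat * B + 1
  have hT : 0 < T := Nat.succ_pos _
  refine ⟨2 * T, fun Γ hΓ1 hΓ2 => ?_⟩
  set m := m1 + 2 * T * c with hm
  have hmb : m * q ≤ b * T := by
    have : m1 * q ≤ m1 * q * T := Nat.le_mul_of_pos_right _ hT
    have e1 : b * T = m1 * q * T + 2 * T * c * q + T := by simp only [b]; ring
    have e2 : m * q = m1 * q + 2 * T * c * q := by rw [hm]; ring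
    rw [e1, e2]
    omega
  have hTm : T ≤ m := by
    have : 2 * T ≤ 2 * T * c := Nat.le_mul_of_pos_right _ hc
    omega
  have h1 : Γ.card ≤ (D s q T).card * B :=
    (Finset.card_le_card hΓ2).trans (card_D_le hb hmb)
  have h2 : (T : ℤ) * (D s q T).card ≤
      ∑ β : Γ, max 0 (((2 * T : ℕ) : ℤ) - β.1.degree) := by
    rw [Finset.sum_coe_sort Γ (fun β => max 0 (((2 * T : ℕ) : ℤ) - β.degree))]
    calc (T : ℤ) * (D s q T).card = ∑ β ∈ D s q T, (T : ℤ) := by
          rw [Finset.sum_const, nsmul_eq_mul, mul_comm]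
      _ ≤ ∑ β ∈ D s q T, max 0 (((2 * T : ℕ) : ℤ) - β.degree) := by
          apply Finset.sum_le_sum
          intro β hβ
          have := (mem_D.1 hβ).1
          refine le_trans ?_ (le_max_right _ _)
          push_cast
          omega
      _ ≤ ∑ β ∈ Γ, max 0 (((2 * T : ℕ) : ℤ) - β.degree) := by
          apply Finset.sum_le_sum_of_subset_of_nonneg ((D_mono hTm).trans hΓ1)
          intro γ _ _
          exact le_max_left _ _
  have h3 : 0 < Γ.card := by
    apply Finset.card_pos.2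
    refine ⟨0, hΓ1 ?_⟩
    rw [mem_D]
    simp
  set G : ℤ := ∑ β : Γ, max 0 (((2 * T : ℕ) : ℤ) - β.1.degree)
  set S := (D s q T).card
  set n := Γ.card
  -- T n ≤ B G
  have h4 : (T : ℤ) * n ≤ B * G := by
    have h5 : (n : ℤ) ≤ S * B := by exact_mod_cast h1
    calc (T : ℤ) * n ≤ T * (S * B) := mul_le_mul_of_nonneg_left h5 (by positivity)
      _ = B * (T * S) := by ring
      _ ≤ B * G := mul_le_mul_of_nonneg_left h2 (by positivity)
  have h6 : C * B < T := by
    have : C ≤ C.toNat := Int.self_le_toNat C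
    have h7 : C * B ≤ C.toNat * B := mul_le_mul_of_nonneg_right this (by positivity)
    have h8 : (T : ℤ) = C.toNat * B + 1 := by simp only [T]; push_cast; ring
    omega
  have h9 : (n : ℤ) * C * B < B * G := by
    calc (n : ℤ) * C * B = (C * B) * n := by ring
      _ < T * n := mul_lt_mul_of_pos_right h6 (by exact_mod_cast h3)
      _ ≤ B * G := h4
  have h10 : (0 : ℤ) < B := by exact_mod_cast hB
  by_contra hc
  push Not at hc
  have h11 : (B : ℤ) * G ≤ B * (n * C) := mul_le_mul_of_nonneg_left hc h10.le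
  linarith

end count

/-- **Package A1.** -/
theorem a1 : S_A1 := by
  classical
  intro K _ _ _ s q c hs hqs hc V hV g hg d N e hd he hb P0 hb0 P1 hP1 hz
  have hb1 : ∀ v ∈ V, ∀ α, Ge P1 (-N P1) (coeff α v) := by
    intro v hv α
    have := hb P1 v hv α
    rwa [hP1, inv_one, sb_one] at this
  obtain ⟨m0, hm0⟩ := gen hqs P1 (N P1) c V hV hb1 hz
  by_contra hneg
  push Not at hneg
  obtain ⟨j, hj⟩ := exists_gain s q hc m0 (s * m0 * q * ddeg e + m0 * q * ddeg d)
  obtain ⟨Γ, b, hΓ1, hΓ2, hb1', hb2, hb3⟩ := exists_coord (F := ℂ) (s := s) (q := q) hqs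
    (m0 + j * c)
  have hC := isC_map hb1' hb2 hb3 (algebraMap ℂ K)
  have h1 := bound hV le_rfl hm0 g hg d N e hd he hb P0 hb0 hs hC
  have hj' := hj Γ hΓ1 hΓ2
  set G : ℤ := ∑ β : Γ, max 0 ((j : ℤ) - β.1.degree) with hG
  have hG0 : 0 ≤ G := Finset.sum_nonneg fun γ _ => le_max_left _ _
  have hρ : (1 : ℤ) ≤ s := by exact_mod_cast hs
  have h2 : G ≤ s * G := le_mul_of_one_le_left hG0 hρ
  have h3 : (s * (j * ddeg N + m0 * q * ddeg e) + ((m0 + j * c : ℕ) : ℤ) * q * ddeg d) =
      j * (c * q * ddeg d + s * ddeg N) +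
        (s * m0 * q * ddeg e + m0 * q * ddeg d) := by
    push_cast; ring
  rw [h3] at h1
  have h4 : (j : ℤ) * (c * q * ddeg d + s * ddeg N) ≤ 0 :=
    mul_nonpos_of_nonneg_of_nonpos (by positivity) hneg
  have h5 : (Γ.card : ℤ) * (j * (c * q * ddeg d + s * ddeg N) +
        (s * m0 * q * ddeg e + m0 * q * ddeg d)) ≤
      Γ.card * (s * m0 * q * ddeg e + m0 * q * ddeg d) :=
    mul_le_mul_of_nonneg_left (by linarith) (by positivity)
  linarith

end Pool.Agent.Helper42.GR
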